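import Pool.Agent.Lib_helper19.GC2.Good

/-! # The recursion

A column of capacity `k` over the rows `R` (`Col k R Γ`): all sets of at most `k` rows are faces, and
every link by a set of fewer than `k` rows can be opened (`Opn`): it contains a complex which is built from a
simplex by adding intervals, all large, and which contains all small sets. -/

set_option autoImplicit false

namespace Pool.Agent.KAL

open Finset Function

variable {P C : Type*} [DecidableEq P] [Fintype C] [DecidableEq C]

/-- The complex `Γ` is built from a simplex `T` with `f 0 ≤ #T` by adding intervals `[X, X ∪ T]` with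
`#X < k` and `f #X ≤ #T`. -/
inductive Bld (k : ℕ) (f : ℕ → ℕ) (R : Finset P) : (Finset P → Prop) → Prop
  | base (T : Finset P) (hT : T ⊆ R) (h : f 0 ≤ T.card) : Bld k f R (fun A => A ⊆ T)
  | step (Γ' Γ : Finset P → Prop) (X T : Finset P) (h : Bld k f R Γ') (hX : X ⊆ R)
      (hT : T ⊆ R) (hXT : Disjoint X T) (hk : X.card < k) (hf : f X.card ≤ T.card)
      (hn : ¬ Γ' X) (hd : Down Γ) (hle : ∀ A, Γ' A → Γ A)
      (hi : ∀ A, A ⊆ R → Γ A → Γ' A ∨ (X ⊆ A ∧ A ⊆ X ∪ T)) (hXTΓ : Γ (X ∪ T)) : Bld k f R Γ
  | congr (Γ' Γ : Finset P → Prop) (h : Bld k f R Γ') (hd : Down Γ)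
      (he : ∀ A, A ⊆ R → (Γ' A ↔ Γ A)) : Bld k f R Γ

omit [DecidableEq P] in
theorem Down.empty_of {Γ : Finset P → Prop} (h : Down Γ) {A : Finset P} (hA : Γ A) : Γ ∅ :=
  h _ _ (empty_subset A) hA

theorem Bld.down {k : ℕ} {f : ℕ → ℕ} {R : Finset P} {Γ : Finset P → Prop} (h : Bld k f R Γ) :
    Down Γ := by
  cases h with
  | base T hT h => exact fun A B hAB hB => hAB.trans hB
  | step Γ' _ X T h hX hT hXT hk hf hn hd hle hi hXTΓ => exact hd
  | congr Γ' _ h hd he => exact hd

theorem Bld.nonempty {k : ℕ} {f : ℕ → ℕ} {R : Finset P} {Γ : Finset P → Prop}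
    (h : Bld k f R Γ) : Γ ∅ := by
  induction h with
  | base T hT h => exact empty_subset T
  | step Γ' Γ X T h hX hT hXT hk hf hn hd hle hi hXTΓ ih => exact hle _ ih
  | congr Γ' Γ h hd he ih => exact (he ∅ (empty_subset R)).1 ih

/-- The complex `Γ` can be opened with capacity `k` over the rows `R`. -/
def Opn (k : ℕ) (R : Finset P) (Γ : Finset P → Prop) : Prop :=
  ∃ Γ' : Finset P → Prop, Bld k (fun j => (R.card + 1) / (j + 2)) R Γ' ∧
    (∀ A, A ⊆ R → Γ' A → Γ A) ∧ ∀ A, A ⊆ R → A.card < k → Γ' A

/-- A column of capacity `k` over the rows `R`. -/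
def Col (k : ℕ) (R : Finset P) (Γ : Finset P → Prop) : Prop :=
  Down Γ ∧ (∀ A, A ⊆ R → A.card ≤ k → Γ A) ∧
    ∀ X R' : Finset P, X ⊆ R → R' ⊆ R → Disjoint X R' → X.card < k →
      Opn (k - X.card) R' fun A => Γ (X ∪ A)

theorem Col.mono {k : ℕ} {R R' : Finset P} {Γ : Finset P → Prop} (h : Col k R Γ) (hR : R' ⊆ R) :
    Col k R' Γ :=
  ⟨h.1, fun A hA => h.2.1 A (hA.trans hR),
    fun X R'' hX hR'' => h.2.2 X R'' (hX.trans hR) (hR''.trans hR)⟩

theorem Col.opn {k : ℕ} {R : Finset P} {Γ : Finset P → Prop} (h : Col k R Γ) (hk : 0 < k) :
    Opn k R Γ := by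
  have h1 := h.2.2 ∅ R (empty_subset R) (Subset.refl R) (disjoint_empty_left R)
    (by rwa [card_empty])
  simp only [card_empty, Nat.sub_zero, empty_union] at h1
  exact h1

/-- A column without capacity. -/
theorem col_zero {R : Finset P} {Γ : Finset P → Prop} (h : Down Γ) (h0 : Γ ∅) : Col 0 R Γ :=
  ⟨h, fun A _ hA => by rwa [Finset.card_eq_zero.1 (Nat.le_zero.1 hA)],
    fun X _ _ _ _ hX => absurd hX (Nat.not_lt_zero _)⟩

/-- The link of a row in a column. -/
theorem Col.link {k : ℕ} {R : Finset P} {Γ : Finset P → Prop} (h : Col k R Γ) {x : P}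
    (hx : x ∈ R) (hΓ : Γ {x}) : Col (k - 1) (R.erase x) fun A => Γ (insert x A) := by
  have hd : Down fun A => Γ (insert x A) := fun A B hAB hB =>
    h.1 _ _ (insert_subset_insert x hAB) hB
  rcases Nat.eq_zero_or_pos k with rfl | hk
  · exact col_zero hd (by simpa using hΓ)
  refine ⟨hd, ?_, ?_⟩
  · intro A hA hAc
    refine h.2.1 _ (insert_subset hx (hA.trans (erase_subset _ _))) ?_
    exact (card_insert_le x A).trans (by omega)
  · intro X R' hX hR' hXR' hXk
    have hxX : x ∉ X := fun h1 => (mem_erase.1 (hX h1)).1 rfl
    have hxR' : x ∉ R' := fun h1 => (mem_erase.1 (hR' h1)).1 rfl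
    have h1 := h.2.2 (insert x X) R' (insert_subset hx (hX.trans (erase_subset _ _)))
      (hR'.trans (erase_subset _ _)) (disjoint_insert_left.2 ⟨hxR', hXR'⟩)
      (by rw [card_insert_of_notMem hxX]; omega)
    rw [card_insert_of_notMem hxX] at h1
    have h2 : k - 1 - X.card = k - (X.card + 1) := by omega
    rw [h2]
    simp only [insert_union] at h1
    exact h1

/-- The row `x` may always be added to some column. -/
def Free (D : C → Finset P → Prop) (R : Finset P) (x : P) : Prop :=
  ∃ c, ∀ A, A ⊆ R → D c A → D c (insert x A)

/-- The number of rows which are not free. -/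
noncomputable def nf (D : C → Finset P → Prop) (R : Finset P) : ℕ :=
  {x | x ∈ R ∧ ¬ Free D R x}.ncard

omit [Fintype C] [DecidableEq C] in
theorem nf_le {D D' : C → Finset P → Prop} {R R' : Finset P}
    (h : ∀ x, x ∈ R' → ¬ Free D' R' x → x ∈ R ∧ ¬ Free D R x) : nf D' R' ≤ nf D R :=
  Set.ncard_le_ncard (fun x hx => h x hx.1 hx.2) (R.finite_toSet.subset fun _ hx => hx.1)

omit [Fintype C] [DecidableEq C] in
theorem nf_le_card {D : C → Finset P → Prop} {R R' : Finset P}
    (h : ∀ x, x ∈ R → ¬ Free D R x → x ∈ R') : nf D R ≤ R'.card := by
  rw [← Set.ncard_coe_finset R']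
  exact Set.ncard_le_ncard (fun x hx => h x hx.1 hx.2) R'.finite_toSet

omit [DecidableEq P] [Fintype C] in
theorem rep_self (D : C → Finset P → Prop) (c : C) : rep D c (D c) = D := by
  funext e A
  unfold rep
  by_cases he : e = c
  · rw [if_pos he, he]
  · rw [if_neg he]

/-- What the induction uses about the numbers. -/
structure Num (δ : ℕ) (U : ℕ → ℕ) : Prop where
  zero : U 0 = 0
  stp : ∀ d n : ℕ, n ≤ U (d + 1) → n ≤ U d + 1 ∨ ∀ k, 1 ≤ k → k ≤ δ → ∀ j, j < k →
    n - j - (n + 1) / (j + 2) ≤ U (d + 1 + j - k)

/-- The sum of the capacities after changing one of them. -/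
theorem sum_update (cap : C → ℕ) (c : C) (v : ℕ) :
    ∑ e, update cap c v e + cap c = ∑ e, cap e + v := by
  rw [← Finset.add_sum_erase _ _ (mem_univ c), ← Finset.add_sum_erase univ cap (mem_univ c),
    update_self, Finset.sum_congr rfl fun e he => update_of_ne (ne_of_mem_erase he) v cap]
  ring

/-- The step for a system with a free row. -/
theorem free_step {δ : ℕ} {U : ℕ → ℕ} {n : ℕ}
    (ih : ∀ R : Finset P, R.card < n → ∀ (D : C → Finset P → Prop) (cap : C → ℕ) (d : ℕ),
      (∀ c, Col (cap c) R (D c)) → (∀ c, cap c ≤ δ) →
      (nf D R = 0 ∨ (d + R.card ≤ ∑ c, cap c + 1 ∧ nf D R ≤ U d)) → Good D R)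
    (R : Finset P) (hR : R.card = n) (D : C → Finset P → Prop) (cap : C → ℕ) (d : ℕ)
    (hcol : ∀ c, Col (cap c) R (D c)) (hcap : ∀ c, cap c ≤ δ)
    (h : nf D R = 0 ∨ (d + R.card ≤ ∑ c, cap c + 1 ∧ nf D R ≤ U d))
    {x : P} (hx : x ∈ R) (hfree : Free D R x) : Good D R := by
  obtain ⟨c, hc⟩ := hfree
  have hcard : (R.erase x).card + 1 = R.card := card_erase_add_one hx
  refine good_free (fun e => (hcol e).1) hx
    (fun A hA => hc A (hA.trans (erase_subset _ _))) fun e he => ?_
  by_cases hxe : D e {x}
  · have hsum := sum_update cap e (cap e - 1)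
    have hnf : nf (lk D x e) (R.erase x) ≤ nf D R := by
      refine nf_le fun y hy hyf => ⟨mem_of_mem_erase hy, fun hyf' => hyf ?_⟩
      obtain ⟨c', hc'⟩ := hyf'
      refine ⟨c', fun A hA => ?_⟩
      unfold lk
      by_cases h1 : c' = e
      · rw [if_pos h1, if_pos h1, insert_comm]
        exact hc' _ (insert_subset hx (hA.trans (erase_subset _ _)))
      · rw [if_neg h1, if_neg h1]
        exact hc' _ (hA.trans (erase_subset _ _))
    refine ih (R.erase x) (by omega) (lk D x e) (update cap e (cap e - 1)) d ?_ ?_ ?_
    · intro c'
      by_cases h1 : c' = e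
      · subst h1
        rw [update_self]
        have h2 : (lk D x c' c') = fun A => D c' (insert x A) := by
          funext A
          unfold lk
          rw [if_pos rfl]
        rw [h2]
        exact (hcol c').link hx hxe
      · rw [update_of_ne h1]
        have h2 : (lk D x e c') = D c' := by
          funext A
          unfold lk
          rw [if_neg h1]
        rw [h2]
        exact (hcol c').mono (erase_subset _ _)
    · intro c'
      by_cases h1 : c' = e
      · subst h1
        rw [update_self]
        exact (Nat.sub_le _ _).trans (hcap c')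
      · rw [update_of_ne h1]
        exact hcap c'
    · rcases h with h | ⟨h1, h2⟩
      · left
        omega
      · right
        exact ⟨by omega, by omega⟩
  · refine good_of_not (c := e) fun A hA => hxe ?_
    unfold lk at hA
    rw [if_pos rfl] at hA
    exact (hcol e).1 _ _ (singleton_subset_iff.2 (mem_insert_self x A)) hA

/-- The recursion. -/
theorem good_aux {δ : ℕ} {U : ℕ → ℕ} (hU : Num δ U) (n : ℕ) :
    ∀ R : Finset P, R.card = n → ∀ (D : C → Finset P → Prop) (cap : C → ℕ) (d : ℕ),
      (∀ c, Col (cap c) R (D c)) → (∀ c, cap c ≤ δ) →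
      (nf D R = 0 ∨ (d + R.card ≤ ∑ c, cap c + 1 ∧ nf D R ≤ U d)) → Good D R := by
  induction n using Nat.strong_induction_on with
  | _ n ih' =>
    have ih : ∀ R : Finset P, R.card < n → ∀ (D : C → Finset P → Prop) (cap : C → ℕ) (d : ℕ),
        (∀ c, Col (cap c) R (D c)) → (∀ c, cap c ≤ δ) →
        (nf D R = 0 ∨ (d + R.card ≤ ∑ c, cap c + 1 ∧ nf D R ≤ U d)) → Good D R :=
      fun R hR => ih' R.card hR R rfl
    intro R hR D cap d hcol hcap h
    by_cases hfree : ∃ x ∈ R, Free D R x
    · obtain ⟨x, hx, hxf⟩ := hfree
      exact free_step ih R hR D cap d hcol hcap h hx hxf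
    push Not at hfree
    rcases R.eq_empty_or_nonempty with rfl | hne
    · exact good_empty D
    have hpos : 0 < n := by
      rw [← hR]
      exact card_pos.2 hne
    -- all rows are not free
    have hnf : nf D R = R.card := by
      unfold nf
      rw [← Set.ncard_coe_finset R]
      congr 1
      ext x
      exact ⟨fun hx => hx.1, fun hx => ⟨hx, hfree x hx⟩⟩
    obtain ⟨h1, h2⟩ : d + R.card ≤ ∑ c, cap c + 1 ∧ nf D R ≤ U d := by
      rcases h with h | h
      · omega
      · exact h
    rw [hnf, hR] at h2
    rw [hR] at h1
    obtain ⟨d, rfl⟩ : ∃ d', d = d' + 1 := by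
      rcases d with _ | d
      · rw [hU.zero] at h2
        omega
      · exact ⟨d, rfl⟩
    -- a column with positive capacity
    obtain ⟨c, hc⟩ : ∃ c, 0 < cap c := by
      by_contra hcon
      push Not at hcon
      have h3 : ∑ c, cap c = 0 := Finset.sum_eq_zero fun c _ => Nat.le_zero.1 (hcon c)
      omega
    set k := cap c with hk
    -- deleting the column `c` together with a face of size at least `k`
    have hdel : ∀ A : Finset P, A ⊆ R → k ≤ A.card →
        Good (rep D c fun B => B = ∅) (R \ A) := by
      intro A hA hkA
      have hsum := sum_update cap c 0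
      have hcardA : (R \ A).card + A.card = R.card := card_sdiff_add_card_eq_card hA
      refine ih (R \ A) (by omega) _ (update cap c 0) (d + 1) ?_ ?_ (Or.inr ⟨by omega, ?_⟩)
      · intro e
        by_cases he : e = c
        · subst he
          rw [update_self]
          have h3 : (rep D e (fun B => B = ∅) e) = fun B => B = ∅ := by
            funext B
            unfold rep
            rw [if_pos rfl]
          rw [h3]
          exact col_zero (fun A B hAB hB => subset_empty.1 (hB ▸ hAB)) rfl
        · rw [update_of_ne he]
          have h3 : (rep D c (fun B => B = ∅) e) = D e := by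
            funext B
            unfold rep
            rw [if_neg he]
          rw [h3]
          exact (hcol e).mono sdiff_subset
      · intro e
        by_cases he : e = c
        · subst he
          rw [update_self]
          exact Nat.zero_le _
        · rw [update_of_ne he]
          exact hcap e
      · refine (nf_le_card (R' := R \ A) fun x hx _ => hx).trans ?_
        omega
    rcases hU.stp d n h2 with h3 | h3
    · -- mark the column `c`
      obtain ⟨x, hx⟩ := hne
      have hcard : (R.erase x).card + 1 = R.card := card_erase_add_one hx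
      rw [← rep_self D c]
      have hdown : Down fun A => D c (insert x A) := fun A B hAB hB =>
        (hcol c).1 _ _ (insert_subset_insert x hAB) hB
      refine good_cmp (hcol c).1 hdown (fun A hA => (hcol c).1 _ _ (subset_insert x A) hA) ?_ ?_
      · intro A hA _ hA2
        refine hdel A hA ?_
        by_contra hlt
        push Not at hlt
        refine hA2 ((hcol c).2.1 _ (insert_subset hx hA) ?_)
        exact (card_insert_le x A).trans hlt
      · have hdown' : ∀ e, Down (rep D c (fun A => D c (insert x A)) e) := by
          intro e A B hAB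
          unfold rep
          by_cases he : e = c
          · rw [if_pos he, if_pos he]
            exact hdown A B hAB
          · rw [if_neg he, if_neg he]
            exact (hcol e).1 A B hAB
        refine good_free hdown' hx (c := c) ?_ fun e he => ?_
        · intro A _
          unfold rep
          rw [if_pos rfl, if_pos rfl]
          show D c (insert x A) → D c (insert x (insert x A))
          rw [insert_idem]
          exact id
        · by_cases hxe : D e {x}
          · have hs1 := sum_update cap c (k - 1)
            have hs2 := sum_update (update cap c (k - 1)) e (cap e - 1)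
            rw [update_of_ne he] at hs2
            refine ih (R.erase x) (by omega) _ (update (update cap c (k - 1)) e (cap e - 1)) d
              ?_ ?_ (Or.inr ⟨by omega, ?_⟩)
            · intro c'
              by_cases h4 : c' = e
              · subst h4
                rw [update_self]
                have h5 : (lk (rep D c fun A => D c (insert x A)) x c' c') =
                    fun A => D c' (insert x A) := by
                  funext A
                  unfold lk rep
                  rw [if_pos rfl, if_neg he]
                rw [h5]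
                exact (hcol c').link hx hxe
              · rw [update_of_ne h4]
                by_cases h6 : c' = c
                · subst h6
                  rw [update_self]
                  have h5 : (lk (rep D c' fun A => D c' (insert x A)) x e c') =
                      fun A => D c' (insert x A) := by
                    funext A
                    unfold lk rep
                    rw [if_neg h4, if_pos rfl]
                  rw [h5]
                  refine (hcol c').link hx ((hcol c').2.1 _ (singleton_subset_iff.2 hx) ?_)
                  rw [card_singleton]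
                  exact hc
                · rw [update_of_ne h6]
                  have h5 : (lk (rep D c fun A => D c (insert x A)) x e c') = D c' := by
                    funext A
                    unfold lk rep
                    rw [if_neg h4, if_neg h6]
                  rw [h5]
                  exact (hcol c').mono (erase_subset _ _)
            · intro c'
              by_cases h4 : c' = e
              · subst h4
                rw [update_self]
                exact (Nat.sub_le _ _).trans (hcap c')
              · rw [update_of_ne h4]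
                by_cases h6 : c' = c
                · subst h6
                  rw [update_self]
                  exact (Nat.sub_le _ _).trans (hcap c')
                · rw [update_of_ne h6]
                  exact hcap c'
            · refine (nf_le_card (R' := R.erase x) fun y hy _ => hy).trans ?_
              omega
          · refine good_of_not (c := e) fun A hA => hxe ?_
            unfold lk rep at hA
            rw [if_pos rfl, if_neg he] at hA
            exact (hcol e).1 _ _ (singleton_subset_iff.2 (mem_insert_self x A)) hA
    · -- open the column `c`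
      obtain ⟨Γ', hB, hΓ1, hΓ2⟩ := (hcol c).opn hc
      have hnum := h3 k hc (hcap c)
      have hsum := sum_update cap c 0
      -- a column replaced by a simplex
      have hcolT : ∀ (T : Finset P) (R' : Finset P), R' ⊆ R → ∀ e,
          Col (update cap c 0 e) R' (rep D c (fun A => A ⊆ T) e) := by
        intro T R' hR' e
        by_cases he : e = c
        · subst he
          rw [update_self]
          have h4 : (rep D e (fun A => A ⊆ T) e) = fun A => A ⊆ T := by
            funext B
            unfold rep
            rw [if_pos rfl]
          rw [h4]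
          exact col_zero (fun A B hAB hB => hAB.trans hB) (empty_subset T)
        · rw [update_of_ne he]
          have h4 : (rep D c (fun A => A ⊆ T) e) = D e := by
            funext B
            unfold rep
            rw [if_neg he]
          rw [h4]
          exact (hcol e).mono hR'
      have hcap0 : ∀ e, update cap c 0 e ≤ δ := by
        intro e
        by_cases he : e = c
        · subst he
          rw [update_self]
          exact Nat.zero_le _
        · rw [update_of_ne he]
          exact hcap e
      have hfreeT : ∀ (T R' : Finset P) (x : P), x ∈ T → Free (rep D c fun A => A ⊆ T) R' x := by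
        intro T R' x hxT
        refine ⟨c, fun A _ => ?_⟩
        unfold rep
        rw [if_pos rfl, if_pos rfl]
        exact fun hA => insert_subset hxT hA
      have hnfT : ∀ T R' : Finset P, nf (rep D c fun A => A ⊆ T) R' ≤ (R' \ T).card := by
        intro T R'
        refine nf_le_card fun x hx hxf => mem_sdiff.2 ⟨hx, fun hxT => hxf (hfreeT T R' x hxT)⟩
      have hall : ∀ Γ'' : Finset P → Prop,
          Bld k (fun j => (R.card + 1) / (j + 2)) R Γ'' → Good (rep D c Γ'') R := by
        intro Γ'' hB''
        induction hB'' with
        | base T hT hf =>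
          have hf' : (n + 1) / 2 ≤ T.card := by
            rw [← hR]
            exact hf
          have hTpos : 0 < T.card := by omega
          obtain ⟨x, hxT⟩ := card_pos.1 hTpos
          have h4 := hnum 0 hc
          have h5 : (R \ T).card + T.card = R.card := card_sdiff_add_card_eq_card hT
          have h6 := hnfT T R
          refine free_step ih R hR _ (update cap c 0) (d + 1 + 0 - k) (hcolT T R (Subset.refl R))
            hcap0 ?_ (hT hxT) (hfreeT T R x hxT)
          by_cases h7 : k ≤ d + 1
          · right
            exact ⟨by omega, by omega⟩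
          · left
            have h8 : d + 1 + 0 - k = 0 := by omega
            rw [h8, hU.zero] at h4
            omega
        | step Γ₀ Γ₁ X T h0 hX hT hXT hXk hf hn hd hle hi hXTΓ ih0 =>
          have hXpos : 0 < X.card := by
            rw [card_pos, nonempty_iff_ne_empty]
            intro hXe
            rw [hXe] at hn
            exact hn h0.nonempty
          refine good_int hX h0.down hd hn hle hi hXTΓ ih0 ?_
          have hf' : (n + 1) / (X.card + 2) ≤ T.card := by
            rw [← hR]
            exact hf
          have h4 := hnum X.card hXk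
          have h5 : (R \ X).card + X.card = R.card := card_sdiff_add_card_eq_card hX
          have hTX : T ⊆ R \ X := fun x hx =>
            mem_sdiff.2 ⟨hT hx, fun hxX => (Finset.disjoint_left.1 hXT hxX) hx⟩
          have h6 : ((R \ X) \ T).card + T.card = (R \ X).card := card_sdiff_add_card_eq_card hTX
          have h7 := hnfT T (R \ X)
          refine ih (R \ X) (by omega) _ (update cap c 0) (d + 1 + X.card - k)
            (hcolT T _ sdiff_subset) hcap0 ?_
          by_cases h8 : k ≤ d + 1 + X.card
          · right
            exact ⟨by omega, by omega⟩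
          · left
            have h9 : d + 1 + X.card - k = 0 := by omega
            rw [h9, hU.zero] at h4
            omega
        | congr Γ₀ Γ₁ h0 hd he ih0 =>
          refine good_congr ?_ ih0
          intro e A hA
          unfold rep
          by_cases hec : e = c
          · rw [if_pos hec, if_pos hec]
            exact he A hA
          · rw [if_neg hec, if_neg hec]
      rw [← rep_self D c]
      have hdownR : Down fun A => Γ' A ∧ A ⊆ R := fun A B hAB hB' =>
        ⟨hB.down _ _ hAB hB'.1, hAB.trans hB'.2⟩
      refine good_cmp (Γ' := fun A => Γ' A ∧ A ⊆ R) (hcol c).1 hdownR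
        (fun A hA => hΓ1 A hA.2 hA.1) ?_ ?_
      · intro A hA _ hA2
        refine hdel A hA ?_
        by_contra hlt
        push Not at hlt
        exact hA2 ⟨hΓ2 A hA hlt, hA⟩
      · exact hall _ (Bld.congr Γ' _ hB hdownR fun A hA => ⟨fun h4 => ⟨h4, hA⟩, fun h4 => h4.1⟩)

/-- The thresholds (helper20). -/
structure Rule (d : ℕ) (U : ℤ → ℕ) : Prop where
  mono : Monotone U
  neg : ∀ D : ℤ, D ≤ 0 → U D = 0
  step : ∀ (D : ℤ) (m : ℕ), 1 ≤ m → m ≤ U D → m ≤ U (D - 1) + 1 ∨
    ∀ k, k ≤ d → ∀ j, j < k → m - j - (m + 1) / (j + 2) ≤ U (D - k + j)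

theorem Rule.num {d : ℕ} {U : ℤ → ℕ} (h : Rule d U) : Num d fun n => U n where
  zero := h.neg 0 (le_refl _)
  stp := by
    intro D n hn
    rcases Nat.eq_zero_or_pos n with rfl | hpos
    · left
      exact Nat.zero_le _
    rcases h.step (D + 1 : ℕ) n hpos hn with h1 | h1
    · left
      have h2 : ((D + 1 : ℕ) : ℤ) - 1 = (D : ℤ) := by push_cast; ring
      rwa [h2] at h1
    · right
      intro k _ hkd j hj
      have h2 := h1 k hkd j hj
      by_cases h3 : k ≤ D + 1 + j
      · have h4 : ((D + 1 : ℕ) : ℤ) - k + j = ((D + 1 + j - k : ℕ) : ℤ) := by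
          rw [Nat.cast_sub h3]
          push_cast
          ring
        rwa [h4] at h2
      · rw [h.neg _ (by push_cast; omega)] at h2
        exact h2.trans (Nat.zero_le _)

/-- **The recursion.** -/
theorem good_of_num {δ : ℕ} {U : ℕ → ℕ} (hU : Num δ U) (R : Finset P)
    (D : C → Finset P → Prop) (cap : C → ℕ) (d : ℕ) (hcol : ∀ c, Col (cap c) R (D c))
    (hcap : ∀ c, cap c ≤ δ) (h1 : d + R.card ≤ ∑ c, cap c + 1) (h2 : R.card ≤ U d) : Good D R :=
  good_aux hU R.card R rfl D cap d hcol hcap
    (Or.inr ⟨h1, (nf_le_card (R' := R) fun _ hx _ => hx).trans h2⟩)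

/-- The recursion, for thresholds `U : ℤ → ℕ`. -/
theorem good_of_rule {δ : ℕ} {U : ℤ → ℕ} (hU : Rule δ U) (R : Finset P)
    (D : C → Finset P → Prop) (cap : C → ℕ) (d : ℕ) (hcol : ∀ c, Col (cap c) R (D c))
    (hcap : ∀ c, cap c ≤ δ) (h1 : d + R.card ≤ ∑ c, cap c + 1) (h2 : R.card ≤ U d) : Good D R :=
  good_of_num hU.num R D cap d hcol hcap h1 h2

end Pool.Agent.KAL
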