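import Pool.Agent.Lib_helper19.GC2.Sweep

/-! # The level theorem

From the section `h = 0` to the whole half space `0 < g`. -/

set_option autoImplicit false

namespace Pool.Agent.KAL

open Finset Module

section level

variable {P E : Type*} [DecidableEq P] [AddCommGroup E] [Module ℝ E] [FiniteDimensional ℝ E]
  {r : ℕ} {R : Finset P} {x : P → Dual ℝ E} {g h : Dual ℝ E}

omit [DecidableEq P] [FiniteDimensional ℝ E] in
theorem Act.unique (hS : Swp r R x g h) {σ σ' : ℝ} {X : Finset P} (h1 : Act r R x g h σ X)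
    (h2 : Act r R x g h σ' X) : σ = σ' := by
  obtain ⟨hXR, hXr, c, -, hc⟩ := h1
  obtain ⟨-, -, d, -, hd⟩ := h2
  by_contra hne
  apply hS.G2' X hXR hXr.le
  have h3 : (σ' - σ) • g = ∑ p ∈ X, c p • x p - ∑ p ∈ X, d p • x p := by
    rw [← hc, ← hd]
    module
  have h4 : (σ' - σ) • g ∈ Submodule.span ℝ (x '' (X : Set P)) := by
    rw [h3]
    exact Submodule.sub_mem _ (sum_mem_span x X c) (sum_mem_span x X d)
  have h5 : σ' - σ ≠ 0 := sub_ne_zero.2 (Ne.symm hne)
  have h6 := Submodule.smul_mem _ (σ' - σ)⁻¹ h4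
  rwa [smul_smul, inv_mul_cancel₀ h5, one_smul] at h6

omit [DecidableEq P] [FiniteDimensional ℝ E] in
theorem vals_finite (hS : Swp r R x g h) : {σ : ℝ | ∃ X, Act r R x g h σ X}.Finite := by
  classical
  refine Set.Finite.subset (Set.Finite.biUnion R.powerset.finite_toSet
    (t := fun X => {σ | Act r R x g h σ X}) fun X _ => ?_) ?_
  · exact Set.Subsingleton.finite fun σ h1 σ' h2 => Act.unique hS h1 h2
  · rintro σ ⟨X, hX⟩
    exact Set.mem_biUnion (mem_coe.2 (mem_powerset.2 hX.1)) hX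

/-- Passing a critical value. -/
theorem bld_step (hS : Swp r R x g h) {k : ℕ} {f : ℕ → ℕ} (hrk : r < k)
    (hf : ∀ v : E, 0 < g v → f r ≤ (Tv R x v).card)
    {a τ s : ℝ} (haτ : a < τ) (hτs : τ < s)
    (hno : ∀ σ, τ < σ → σ < s → ∀ X, ¬ Act r R x g h σ X)
    (hB : Bld k f R (Gm x g h a τ)) : Bld k f R (Gm x g h a s) := by
  classical
  have hv : ∀ X : Finset P, ∃ v : E, Act r R x g h τ X → g v = 1 ∧ ∀ p ∈ X, x p v = 0 := by
    intro X
    by_cases hX : Act r R x g h τ X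
    · obtain ⟨v, h1, h2⟩ := exists_vertex hS hX.1 hX.2.1
      exact ⟨v, fun _ => ⟨h1, h2⟩⟩
    · exact ⟨0, fun h => absurd h hX⟩
  choose v hv using hv
  let Γ : Finset (Finset P) → Finset P → Prop := fun S A =>
    Gm x g h a τ A ∨ ∃ X ∈ S, X ⊆ A ∧ A ⊆ X ∪ Tv R x (v X)
  have hdown : ∀ S : Finset (Finset P), (∀ X ∈ S, Act r R x g h τ X) → Down (Γ S) := by
    intro S hS' A B hAB hB'
    rcases hB' with h1 | ⟨X, hX, h1, h2⟩
    · exact Or.inl (Gm.down x g h a τ A B hAB h1)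
    · by_cases h3 : X ⊆ A
      · exact Or.inr ⟨X, hX, h3, hAB.trans h2⟩
      · obtain ⟨h6, h7⟩ := hv X (hS' X hX)
        obtain ⟨h4, h5, c, hc, hrel⟩ := hS' X hX
        exact Or.inl (below_vertex hS h4 h5 hc hrel h6 h7 haτ (hAB.trans h2) h3)
  have hall : ∀ S : Finset (Finset P), (∀ X ∈ S, Act r R x g h τ X) → Bld k f R (Γ S) := by
    intro S
    induction S using Finset.induction_on with
    | empty =>
      intro h0
      refine Bld.congr _ _ hB (hdown ∅ h0) fun A _ => ⟨Or.inl, ?_⟩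
      rintro (h1 | ⟨X, hX, _⟩)
      · exact h1
      · exact absurd hX (notMem_empty X)
    | insert X0 S hX0 ih =>
      intro hS'
      have hS1 : ∀ X ∈ S, Act r R x g h τ X := fun X hX => hS' X (mem_insert_of_mem hX)
      have hA0 := hS' X0 (mem_insert_self _ _)
      obtain ⟨h6, h7⟩ := hv X0 hA0
      obtain ⟨h4, h5, c, hc, hrel⟩ := hA0
      refine Bld.step (Γ S) _ X0 (Tv R x (v X0)) (ih hS1) h4 (fun p hp => (mem_Tv.1 hp).1) ?_
        (by rw [h5]; exact hrk) (by rw [h5]; exact hf _ (by rw [h6]; exact one_pos)) ?_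
        (hdown _ hS') ?_ ?_ ?_
      · rw [Finset.disjoint_left]
        intro p hp hpT
        have := (mem_Tv.1 hpT).2
        rw [h7 p hp] at this
        exact lt_irrefl _ this
      · rintro (⟨l, h8, h9, h10, h11⟩ | ⟨X, hX, h8, h9⟩)
        · have h12 := congrArg (fun f : Dual ℝ E => f l) hrel
          simp only [LinearMap.smul_apply, LinearMap.sub_apply, smul_eq_mul,
            LinearMap.sum_apply] at h12
          have h13 : 0 ≤ ∑ p ∈ X0, c p * x p l :=
            Finset.sum_nonneg fun p hp => mul_nonneg (hc p hp).le (h11 p hp).le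
          linarith
        · have h12 : X = X0 := Finset.eq_of_subset_of_card_le h8
            (by rw [h5, (hS1 X hX).2.1])
          exact hX0 (h12 ▸ hX)
      · rintro A (h8 | ⟨X, hX, h8⟩)
        · exact Or.inl h8
        · exact Or.inr ⟨X, mem_insert_of_mem hX, h8⟩
      · rintro A hA (h8 | ⟨X, hX, h8⟩)
        · exact Or.inl (Or.inl h8)
        · rcases mem_insert.1 hX with rfl | hX
          · exact Or.inr h8
          · exact Or.inl (Or.inr ⟨X, hX, h8⟩)
      · exact Or.inr ⟨X0, mem_insert_self _ _, subset_union_left, Subset.refl _⟩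
  let S0 : Finset (Finset P) := R.powerset.filter fun X => Act r R x g h τ X
  have hS0 : ∀ X ∈ S0, Act r R x g h τ X := fun X hX => (mem_filter.1 hX).2
  refine Bld.congr _ _ (hall S0 hS0) (Gm.down x g h a s) fun A hA => ⟨?_, fun h1 => ?_⟩
  · rintro (⟨l, h1, h2, h3, h4⟩ | ⟨X, hX, h1, h2⟩)
    · exact ⟨l, h1, h2, h3.trans (mul_lt_mul_of_pos_right hτs h1), h4⟩
    · obtain ⟨h6, h7⟩ := hv X (hS0 X hX)
      obtain ⟨h4, h5, c, hc, hrel⟩ := hS0 X hX
      exact Gm.down x g h a s _ _ h2 (near_vertex hS h4 h5 hrel h6 h7 haτ hτs)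
  · by_cases h2 : Gm x g h a τ A
    · exact Or.inl h2
    · obtain ⟨X, hXA, hX, hv'⟩ := key hS haτ hno hA h1 h2
      obtain ⟨h6, h7⟩ := hv X hX
      exact Or.inr ⟨X, mem_filter.2 ⟨mem_powerset.2 hX.1, hX⟩, hXA, hv' (v X) h6 h7⟩

/-- The sweep upwards. -/
theorem bld_phase (hS : Swp r R x g h) {k : ℕ} {f : ℕ → ℕ} (hrk : r < k)
    (hf : ∀ v : E, 0 < g v → f r ≤ (Tv R x v).card) {a : ℝ} (ha : a < 0)
    (hbase : ∀ s : ℝ, 0 < s → (∀ σ, 0 < σ → σ < s → ∀ X, ¬ Act r R x g h σ X) →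
      Bld k f R (Gm x g h a s)) :
    ∀ s, 0 < s → Bld k f R (Gm x g h a s) := by
  have key : ∀ n : ℕ, ∀ s : ℝ, 0 < s →
      {σ : ℝ | 0 < σ ∧ σ < s ∧ ∃ X, Act r R x g h σ X}.ncard = n →
      Bld k f R (Gm x g h a s) := by
    intro n
    induction n using Nat.strong_induction_on with
    | _ n ih =>
      intro s hs hn
      set V := {σ : ℝ | 0 < σ ∧ σ < s ∧ ∃ X, Act r R x g h σ X} with hV
      have hfin : V.Finite := (vals_finite hS).subset fun σ hσ => hσ.2.2
      rcases V.eq_empty_or_nonempty with he | hne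
      · refine hbase s hs fun σ h1 h2 X h3 => ?_
        have : σ ∈ V := ⟨h1, h2, X, h3⟩
        rw [he] at this
        exact this
      · obtain ⟨τ, hτ, hmax⟩ := Set.exists_max_image V id hfin hne
        obtain ⟨h1, h2, h3⟩ := hτ
        refine bld_step hS hrk hf (ha.trans h1) h2 ?_ (ih _ ?_ τ h1 rfl)
        · intro σ h4 h5 X h6
          have := hmax σ ⟨h1.trans h4, h5, X, h6⟩
          exact absurd h4 (not_lt.2 this)
        · rw [← hn]
          refine Set.ncard_lt_ncard ⟨fun σ hσ => ⟨hσ.1, hσ.2.1.trans h2, hσ.2.2⟩,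
            fun hsub => ?_⟩ hfin
          exact lt_irrefl _ (hsub (show τ ∈ V from ⟨h1, h2, h3⟩)).2.1
  exact fun s hs => key _ s hs rfl

/-- No critical value before `s`: the section `h = 0` is met. -/
theorem to_zero (hS : Swp r R x g h) {s : ℝ}
    (hno : ∀ σ, 0 < σ → σ < s → ∀ X, ¬ Act r R x g h σ X)
    {A : Finset P} (hAR : A ⊆ R) {l0 : E} (hg : 0 < g l0) (h0 : 0 < h l0)
    (hs : h l0 < s * g l0) (hA : ∀ p ∈ A, 0 < x p l0) :
    ∃ l : E, h l = 0 ∧ 0 < g l ∧ ∀ p ∈ A, 0 < x p l := by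
  by_contra hn
  obtain ⟨τ', hτ', c, hc, hrel⟩ := farkas0 hg h0 hA hn
  obtain ⟨X, hXA, σ, hσ, hact, hlt⟩ := dual1 hS hAR hg hA hc hrel
  have hσ0 : σ ≠ 0 := by
    rintro rfl
    obtain ⟨hXR, hXr, d, hd, hrel2⟩ := hact
    apply hS.G0 X hXR hXr.le
    rw [zero_smul, sub_zero] at hrel2
    rw [hrel2]
    exact sum_mem_span x X d
  exact hno σ (lt_of_le_of_ne (hτ'.trans hσ) (Ne.symm hσ0))
    (lt_of_mul_lt_mul_right (hlt.trans hs) hg.le) X hact

/-- **The level theorem.** -/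
theorem level (hS : Swp r R x g h) {k : ℕ} {f : ℕ → ℕ} (hrk : r < k)
    (hf : ∀ v : E, 0 < g v → f r ≤ (R.filter fun p => 0 < x p v).card)
    (hB : Bld k f R fun A => ∃ l : E, h l = 0 ∧ 0 < g l ∧ ∀ p ∈ A, 0 < x p l) :
    Bld k f R fun A => ∃ l : E, 0 < g l ∧ ∀ p ∈ A, 0 < x p l := by
  have hf' : ∀ v : E, 0 < g v → f r ≤ (Tv R x v).card := by
    intro v hv
    have h1 : Tv R x v = R.filter fun p => 0 < x p v := by
      ext p
      rw [mem_Tv, mem_filter]
    rw [h1]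
    exact hf v hv
  obtain ⟨M, hM0, hM⟩ : ∃ M : ℝ, 0 < M ∧ ∀ A, A ⊆ R →
      (∃ l : E, 0 < g l ∧ ∀ p ∈ A, 0 < x p l) → Gm x g (-h) (-M) M A := by
    have h1 : ∀ A : Finset P, ∃ m : ℝ, (∃ l : E, 0 < g l ∧ ∀ p ∈ A, 0 < x p l) →
        ∀ M, m < M → Gm x g (-h) (-M) M A := by
      intro A
      by_cases hA : ∃ l : E, 0 < g l ∧ ∀ p ∈ A, 0 < x p l
      · obtain ⟨l, h1, h2⟩ := hA
        refine ⟨|h l| / g l, fun _ M hM => ?_⟩
        have h3 := abs_lt.1 ((div_lt_iff₀ h1).1 hM)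
        refine ⟨l, h1, ?_, ?_, h2⟩
        · rw [LinearMap.neg_apply]
          linarith [h3.2]
        · rw [LinearMap.neg_apply]
          linarith [h3.1]
      · exact ⟨0, fun h => absurd h hA⟩
    choose m hm using h1
    refine ⟨∑ A ∈ R.powerset, |m A| + 1, by positivity, fun A hA h2 => hm A h2 _ ?_⟩
    have h3 := Finset.single_le_sum (f := fun A => |m A|) (fun A _ => abs_nonneg _)
      (mem_powerset.2 hA)
    have h4 := le_abs_self (m A)
    have h5 : |m A| ≤ ∑ A ∈ R.powerset, |m A| := h3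
    linarith
  -- upwards
  have phase1 : ∀ s' : ℝ, 0 < s' → (∀ σ, 0 < σ → σ < s' → ∀ X, ¬ Act r R x g (-h) σ X) →
      ∀ s, 0 < s → Bld k f R (Gm x g h (-s') s) := by
    intro s' hs' hno'
    refine bld_phase hS hrk hf' (by linarith) fun s hs hno => ?_
    refine Bld.congr _ _ hB (Gm.down x g h (-s') s) fun A hA => ⟨?_, ?_⟩
    · rintro ⟨l, h1, h2, h3⟩
      refine ⟨l, h2, ?_, ?_, h3⟩
      · rw [h1]
        have := mul_pos hs' h2
        linarith
      · rw [h1]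
        exact mul_pos hs h2
    · rintro ⟨l, h1, h2, h3, h4⟩
      rcases lt_trichotomy (h l) 0 with h5 | h5 | h5
      · obtain ⟨l', h6, h7, h8⟩ := to_zero hS.neg hno' hA h1
          (by rw [LinearMap.neg_apply]; linarith) (by rw [LinearMap.neg_apply]; linarith) h4
        rw [LinearMap.neg_apply, neg_eq_zero] at h6
        exact ⟨l', h6, h7, h8⟩
      · exact ⟨l, h5, h1, h4⟩
      · exact to_zero hS hno hA h1 h5 h3 h4
  -- downwards
  have phase2 : ∀ s', 0 < s' → Bld k f R (Gm x g (-h) (-M) s') := by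
    refine bld_phase hS.neg hrk hf' (by linarith) fun s' hs' hno' => ?_
    refine Bld.congr _ _ (phase1 s' hs' hno' M hM0) (Gm.down x g (-h) (-M) s') fun A _ => ⟨?_, ?_⟩
    · rintro ⟨l, h1, h2, h3, h4⟩
      refine ⟨l, h1, ?_, ?_, h4⟩
      · rw [LinearMap.neg_apply]
        linarith
      · rw [LinearMap.neg_apply]
        linarith
    · rintro ⟨l, h1, h2, h3, h4⟩
      rw [LinearMap.neg_apply] at h2 h3
      exact ⟨l, h1, by linarith, by linarith, h4⟩
  refine Bld.congr _ _ (phase2 M hM0) ?_ fun A hA => ⟨?_, hM A hA⟩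
  · rintro A B hAB ⟨l, h1, h2⟩
    exact ⟨l, h1, fun p hp => h2 p (hAB hp)⟩
  · rintro ⟨l, h1, _, _, h4⟩
    exact ⟨l, h1, h4⟩

end level

end Pool.Agent.KAL
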