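import Pool.Agent.Lib_helper17.KAL.Defs

/-! # Three rules for `Good`

A free row (`good_free`), adding an interval to a column (`good_int`), comparison of two complexes of a
column (`good_cmp`). -/

set_option autoImplicit false

namespace Pool.Agent.KAL

open Finset Function

variable {P C : Type*} [DecidableEq P] [Fintype C] [DecidableEq C]

/-- Closed under subsets. -/
def Down (Γ : Finset P → Prop) : Prop := ∀ A B : Finset P, A ⊆ B → Γ B → Γ A

/-! ### Classes of an updated colouring -/

omit [Fintype C] in
theorem filter_eq_insert {R : Finset P} {x : P} (hx : x ∈ R) {s : P → C} {c : C} (h : s x = c) :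
    (R.filter fun y => s y = c) = insert x ((R.erase x).filter fun y => s y = c) := by
  ext y
  simp only [mem_filter, mem_insert, mem_erase]
  by_cases hy : y = x
  · subst hy
    simp [hx, h]
  · simp [hy]

omit [Fintype C] in
theorem filter_eq_erase {R : Finset P} {x : P} {s : P → C} {c : C} (h : s x ≠ c) :
    (R.filter fun y => s y = c) = (R.erase x).filter fun y => s y = c := by
  ext y
  simp only [mem_filter, mem_erase]
  by_cases hy : y = x
  · subst hy
    simp [h]
  · simp [hy]

omit [Fintype C] [DecidableEq P] in
theorem filter_congr_on {R : Finset P} {s s' : P → C} (h : ∀ x ∈ R, s x = s' x) (c : C) :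
    (R.filter fun y => s y = c) = R.filter fun y => s' y = c :=
  Finset.filter_congr fun x hx => by rw [h x hx]

omit [Fintype C] [DecidableEq C] in
theorem Dep.update {R : Finset P} {f : (P → C) → ℝ} (hf : Dep R f) {x : P} (hx : x ∉ R)
    (s : P → C) (c : C) : f (update s x c) = f s :=
  hf _ _ fun _ hy => Function.update_of_ne (ne_of_mem_of_not_mem hy hx) _ _

omit [Fintype C] [DecidableEq C] [DecidableEq P] in
theorem Dep.mono {R R' : Finset P} (h : R ⊆ R') {f : (P → C) → ℝ} (hf : Dep R f) : Dep R' f :=
  fun s s' hs => hf s s' fun x hx => hs x (h hx)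

/-- No allowed colourings at all. -/
theorem good_of_not {D : C → Finset P → Prop} {R : Finset P} {c : C} (h : ∀ A, ¬ D c A) :
    Good D R := by
  intro g _ hs _
  refine ⟨fun _ => 0, fun _ _ _ => rfl, fun s hs => absurd rfl hs, ?_⟩
  intro x hx s
  rw [Finset.sum_const_zero]
  by_contra hne
  exact h _ (hs x hx s (Ne.symm hne) c)

theorem good_empty (D : C → Finset P → Prop) : Good D (∅ : Finset P) := by
  intro g _ _ _
  exact ⟨fun _ => 0, fun _ _ _ => rfl, fun s hs => absurd rfl hs,
    fun x hx => absurd hx (Finset.notMem_empty x)⟩

/-! ### A free row -/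

/-- The link of the row `x` in the column `d`. -/
def lk (D : C → Finset P → Prop) (x : P) (d : C) : C → Finset P → Prop :=
  fun e A => if e = d then D e (insert x A) else D e A

/-- If the row `x` may always be added to the column `c`, then it is enough that the links of `x` in
the other columns are good. -/
theorem good_free {D : C → Finset P → Prop} (hD : ∀ e, Down (D e)) {R : Finset P} {x : P}
    (hx : x ∈ R) {c : C} (hfree : ∀ A, A ⊆ R.erase x → D c A → D c (insert x A))
    (hl : ∀ d, d ≠ c → Good (lk D x d) (R.erase x)) : Good D R := by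
  intro g hdep hsupp hcomp
  -- the functions on the links
  have hh : ∀ d, ∃ h : (P → C) → ℝ, Dep (R.erase x) h ∧
      (d ≠ c → Supp (lk D x d) (R.erase x) h) ∧
      (d ≠ c → ∀ y ∈ R.erase x, ∀ s : P → C, ∑ e, h (update s y e) = g y (update s x d)) := by
    intro d
    by_cases hd : d = c
    · exact ⟨fun _ => 0, fun _ _ _ => rfl, fun h => absurd hd h, fun h => absurd hd h⟩
    · obtain ⟨h, h1, h2, h3⟩ := hl d hd (fun y s => g y (update s x d)) (by
        intro y hy s s' hs
        refine hdep y (mem_of_mem_erase hy) _ _ fun z hz => ?_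
        by_cases hzx : z = x
        · subst hzx
          rw [update_self, update_self]
        · rw [update_of_ne hzx, update_of_ne hzx]
          exact hs z (mem_erase.2 ⟨(mem_erase.1 hz).1, mem_erase.2 ⟨hzx, (mem_erase.1 hz).2⟩⟩)) (by
        intro y hy s hs e
        have hyx : y ≠ x := (mem_erase.1 hy).1
        have h1 := hsupp y (mem_of_mem_erase hy) _ hs e
        have hxy : x ∈ R.erase y := mem_erase.2 ⟨Ne.symm hyx, hx⟩
        have hER : (R.erase y).erase x = (R.erase x).erase y := Finset.erase_right_comm
        have hcl : (((R.erase y).erase x).filter fun z => update s x d z = e) =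
            ((R.erase x).erase y).filter fun z => s z = e := by
          rw [hER]
          refine filter_congr_on (fun z hz => ?_) e
          exact update_of_ne (mem_erase.1 (mem_of_mem_erase hz)).1 _ _
        unfold lk
        by_cases he : e = d
        · subst he
          rw [if_pos rfl]
          rwa [filter_eq_insert hxy (update_self x e s), hcl] at h1
        · rw [if_neg he]
          rwa [filter_eq_erase (x := x) (by rw [update_self]; exact Ne.symm he), hcl] at h1) (by
        intro y hy z hz hyz s
        have hyx : y ≠ x := (mem_erase.1 hy).1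
        have hzx : z ≠ x := (mem_erase.1 hz).1
        have h1 := hcomp y (mem_of_mem_erase hy) z (mem_of_mem_erase hz) hyz (update s x d)
        show ∑ e, g y (update (update s z e) x d) = ∑ e, g z (update (update s y e) x d)
        have e1 : ∀ e, update (update s z e) x d = update (update s x d) z e :=
          fun e => update_comm hzx _ _ _
        have e2 : ∀ e, update (update s y e) x d = update (update s x d) y e :=
          fun e => update_comm hyx _ _ _
        simp only [e1, e2]
        exact h1)
      exact ⟨h, h1, fun _ => h2, fun _ => h3⟩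
  choose h h1 h2 h3 using hh
  have hxR : x ∉ R.erase x := notMem_erase x R
  refine ⟨fun s => if s x = c then g x s - ∑ d ∈ univ.erase c, h d s else h (s x) s, ?_, ?_, ?_⟩
  · intro s s' hs
    have hs' : ∀ y ∈ R.erase x, s y = s' y := fun y hy => hs y (mem_of_mem_erase hy)
    show (if s x = c then _ else _) = (if s' x = c then _ else _)
    rw [hs x hx, hdep x hx s s' hs', h1 (s' x) s s' hs',
      Finset.sum_congr rfl fun d _ => h1 d s s' hs']
  · intro s hs e
    have key : ∀ d, d ≠ c → h d s ≠ 0 → D e ((R.erase x).filter fun y => s y = e) := by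
      intro d hd hne
      have h4 := h2 d hd s hne e
      unfold lk at h4
      by_cases he : e = d
      · rw [if_pos he] at h4
        exact hD e _ _ (subset_insert _ _) h4
      · rwa [if_neg he] at h4
    by_cases hc : s x = c
    · have h5 : D e ((R.erase x).filter fun y => s y = e) := by
        simp only [hc, if_true] at hs
        by_cases h6 : g x s = 0
        · have h7 : ∃ d ∈ univ.erase c, h d s ≠ 0 := by
            by_contra hcon
            push Not at hcon
            rw [h6, Finset.sum_eq_zero hcon, sub_zero] at hs
            exact hs rfl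
          obtain ⟨d, hd, hne⟩ := h7
          exact key d (ne_of_mem_erase hd) hne
        · exact hsupp x hx s h6 e
      by_cases he : s x = e
      · rw [filter_eq_insert hx he]
        have hce : c = e := hc.symm.trans he
        subst hce
        exact hfree _ (filter_subset _ _) h5
      · rwa [filter_eq_erase he]
    · simp only [hc, if_false] at hs
      have h4 := h2 (s x) hc s hs e
      unfold lk at h4
      by_cases he : s x = e
      · rw [filter_eq_insert hx he]
        rwa [if_pos he.symm] at h4
      · rw [filter_eq_erase he]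
        rwa [if_neg (Ne.symm he)] at h4
  · intro y hy s
    by_cases hyx : y = x
    · subst hyx
      rw [← Finset.add_sum_erase _ _ (mem_univ c)]
      have e1 : ∀ d ∈ univ.erase c, (if (update s y d) y = c then
          g y (update s y d) - ∑ d' ∈ univ.erase c, h d' (update s y d)
          else h ((update s y d) y) (update s y d)) = h d s := by
        intro d hd
        rw [update_self, if_neg (ne_of_mem_erase hd), (h1 d).update hxR]
      rw [Finset.sum_congr rfl e1]
      show (if (update s y c) y = c then g y (update s y c) - ∑ d ∈ univ.erase c,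
        h d (update s y c) else h ((update s y c) y) (update s y c)) + _ = _
      rw [if_pos (update_self y c s), (hdep y hx).update hxR,
        Finset.sum_congr rfl fun d _ => (h1 d).update hxR s c]
      ring
    · have hyR : y ∈ R.erase x := mem_erase.2 ⟨hyx, hy⟩
      have e0 : ∀ e, (update s y e) x = s x := fun e => update_of_ne (Ne.symm hyx) _ _
      simp only [e0]
      by_cases hc : s x = c
      · simp only [hc, if_true]
        rw [Finset.sum_sub_distrib, Finset.sum_comm,
          Finset.sum_congr rfl fun d hd => h3 d (ne_of_mem_erase hd) y hyR s,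
          hcomp x hx y hy (Ne.symm hyx) s, ← Finset.add_sum_erase _ _ (mem_univ c),
          add_sub_cancel_right, ← hc, update_eq_self]
      · simp only [hc, if_false]
        rw [h3 (s x) hc y hyR s, update_eq_self]

/-! ### Adding an interval to a column -/

/-- Replace the complex of the column `c`. -/
def rep (D : C → Finset P → Prop) (c : C) (Γ : Finset P → Prop) : C → Finset P → Prop :=
  fun e A => if e = c then Γ A else D e A

/-- The interval from `X` to `X ∪ T` is added to the complex `Γ'` of the column `c`. -/
theorem good_int {D : C → Finset P → Prop} {R X T : Finset P} (hX : X ⊆ R)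
    {c : C} {Γ Γ' : Finset P → Prop} (hΓ' : Down Γ') (hΓ : Down Γ) (hXΓ : ¬ Γ' X)
    (hle : ∀ A, Γ' A → Γ A)
    (hint : ∀ A, A ⊆ R → Γ A → Γ' A ∨ (X ⊆ A ∧ A ⊆ X ∪ T)) (hTX : Γ (X ∪ T))
    (h1 : Good (rep D c Γ') R) (h2 : Good (rep D c fun A => A ⊆ T) (R \ X)) :
    Good (rep D c Γ) R := by
  intro g hdep hsupp hcomp
  let put : (P → C) → P → C := fun s p => if p ∈ X then c else s p
  have hputX : ∀ s p, p ∈ X → put s p = c := fun s p hp => if_pos hp
  have hputN : ∀ s p, p ∉ X → put s p = s p := fun s p hp => if_neg hp
  have hput_up : ∀ s y e, y ∉ X → put (update s y e) = update (put s) y e := by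
    intro s y e hy
    funext p
    by_cases hp : p = y
    · subst hp
      rw [hputN _ _ hy, update_self, update_self]
    · rw [update_of_ne hp]
      by_cases hpX : p ∈ X
      · rw [hputX _ _ hpX, hputX _ _ hpX]
      · rw [hputN _ _ hpX, hputN _ _ hpX, update_of_ne hp]
  obtain ⟨h, hd, hs, hh⟩ := h2 (fun x s => g x (put s)) (by
      intro x hx s s' hss
      refine hdep x (mem_sdiff.1 hx).1 _ _ fun z hz => ?_
      by_cases hzX : z ∈ X
      · rw [hputX _ _ hzX, hputX _ _ hzX]
      · rw [hputN _ _ hzX, hputN _ _ hzX]
        exact hss z (mem_erase.2 ⟨(mem_erase.1 hz).1, mem_sdiff.2 ⟨(mem_erase.1 hz).2, hzX⟩⟩)) (by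
      intro x hx s hne e
      have hxX : x ∉ X := (mem_sdiff.1 hx).2
      have h4 := hsupp x (mem_sdiff.1 hx).1 _ hne e
      unfold rep at h4 ⊢
      by_cases he : e = c
      · rw [if_pos he] at h4 ⊢
        have hX4 : X ⊆ (R.erase x).filter fun p => put s p = e := by
          intro p hp
          exact mem_filter.2 ⟨mem_erase.2 ⟨fun h => hxX (h ▸ hp), hX hp⟩,
            (hputX s p hp).trans he.symm⟩
        rcases hint _ ((filter_subset _ _).trans (erase_subset _ _)) h4 with h5 | ⟨_, h5⟩
        · exact absurd (hΓ' _ _ hX4 h5) hXΓ
        · intro p hp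
          obtain ⟨hp1, hp2⟩ := mem_filter.1 hp
          obtain ⟨hp3, hp4⟩ := mem_erase.1 hp1
          obtain ⟨hp5, hp6⟩ := mem_sdiff.1 hp4
          have h6 := h5 (mem_filter.2 ⟨mem_erase.2 ⟨hp3, hp5⟩, (hputN s p hp6).trans hp2⟩)
          exact (mem_union.1 h6).resolve_left hp6
      · rw [if_neg he] at h4 ⊢
        have h6 : (((R \ X).erase x).filter fun p => s p = e) =
            (R.erase x).filter fun p => put s p = e := by
          ext p
          simp only [mem_filter, mem_erase, mem_sdiff]
          by_cases hpX : p ∈ X
          · rw [hputX s p hpX]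
            constructor
            · rintro ⟨⟨_, _, h7⟩, _⟩
              exact absurd hpX h7
            · rintro ⟨_, h7⟩
              exact absurd h7.symm he
          · rw [hputN s p hpX]
            constructor
            · rintro ⟨⟨h7, h8, _⟩, h9⟩
              exact ⟨⟨h7, h8⟩, h9⟩
            · rintro ⟨⟨h7, h8⟩, h9⟩
              exact ⟨⟨h7, h8, hpX⟩, h9⟩
        rw [h6]
        exact h4) (by
      intro x hx y hy hxy s
      have hxX : x ∉ X := (mem_sdiff.1 hx).2
      have hyX : y ∉ X := (mem_sdiff.1 hy).2
      have h4 := hcomp x (mem_sdiff.1 hx).1 y (mem_sdiff.1 hy).1 hxy (put s)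
      simp only [hput_up _ _ _ hyX, hput_up _ _ _ hxX]
      exact h4)
  -- the correction
  let wX : (P → C) → ℝ := fun s => if ∀ p ∈ X, s p = c then h s else 0
  have hwdep : Dep R wX := by
    intro s s' hss
    have h4 : (∀ p ∈ X, s p = c) ↔ ∀ p ∈ X, s' p = c :=
      forall₂_congr fun p hp => by rw [hss p (hX hp)]
    show (if _ then _ else _) = (if _ then _ else _)
    rw [hd s s' fun p hp => hss p (mem_sdiff.1 hp).1]
    by_cases h5 : ∀ p ∈ X, s p = c
    · rw [if_pos h5, if_pos (h4.1 h5)]
    · rw [if_neg h5, if_neg fun h6 => h5 (h4.2 h6)]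
  have hsub : ∀ s : P → C, (∀ p ∈ X, s p = c) → ∀ R' : Finset P, ((R' \ X).filter fun p => s p = c) ⊆ T →
      (R'.filter fun p => s p = c) ⊆ X ∪ T := by
    intro s _ R' hT p hp
    obtain ⟨hp1, hp2⟩ := mem_filter.1 hp
    by_cases hpX : p ∈ X
    · exact mem_union_left _ hpX
    · exact mem_union_right _ (hT (mem_filter.2 ⟨mem_sdiff.2 ⟨hp1, hpX⟩, hp2⟩))
  have hother : ∀ s : P → C, (∀ p ∈ X, s p = c) → ∀ R' : Finset P, ∀ e, e ≠ c →
      (R'.filter fun p => s p = e) = (R' \ X).filter fun p => s p = e := by
    intro s hsX R' e he
    ext p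
    simp only [mem_filter, mem_sdiff]
    constructor
    · rintro ⟨h7, h8⟩
      exact ⟨⟨h7, fun hpX => he (h8.symm.trans (hsX p hpX))⟩, h8⟩
    · rintro ⟨⟨h7, _⟩, h8⟩
      exact ⟨h7, h8⟩
  have hwsupp : Supp (rep D c Γ) R wX := by
    intro s hne e
    have hsX : ∀ p ∈ X, s p = c := by
      by_contra h5
      exact hne (if_neg h5)
    have h5 : h s ≠ 0 := by
      have : wX s = h s := if_pos hsX
      rwa [this] at hne
    have h6 := hs s h5 e
    unfold rep at h6 ⊢
    by_cases he : e = c
    · subst he
      rw [if_pos rfl] at h6 ⊢
      exact hΓ _ _ (hsub s hsX R h6) hTX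
    · rw [if_neg he] at h6 ⊢
      rw [hother s hsX R e he]
      exact h6
  -- the corrected family
  have hb : ∀ x, ∀ s : P → C, ∀ y, x ≠ y → ∀ (d e : C), update (update s y d) x e = update (update s x e) y d :=
    fun x s y hxy d e => (update_comm hxy _ _ _).symm
  obtain ⟨w', hw1, hw2, hw3⟩ := h1 (fun x s => g x s - ∑ d, wX (update s x d)) (by
      intro x hx s s' hss
      show _ - _ = _ - _
      rw [hdep x hx s s' hss]
      congr 1
      refine Finset.sum_congr rfl fun d _ => hwdep _ _ fun z hz => ?_
      by_cases hzx : z = x
      · subst hzx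
        rw [update_self, update_self]
      · rw [update_of_ne hzx, update_of_ne hzx]
        exact hss z (mem_erase.2 ⟨hzx, hz⟩)) (by
      intro x hx s hne e
      by_cases hxX : x ∈ X
      · -- the row belongs to `X`
        have hnot : ∀ Q : Finset P, ¬ X ⊆ (R.erase x).filter fun p => s p = c := by
          intro _ h5
          exact notMem_erase x R (mem_filter.1 (h5 hxX)).1
        by_cases hg : g x s = 0
        · have h5 : ∃ d, wX (update s x d) ≠ 0 := by
            by_contra hcon
            push Not at hcon
            apply hne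
            show g x s - _ = 0
            rw [hg, Finset.sum_eq_zero fun d _ => hcon d, sub_zero]
          obtain ⟨d, hd5⟩ := h5
          have hsX : ∀ p ∈ X, (update s x d) p = c := by
            by_contra h6
            exact hd5 (if_neg h6)
          have hdc : d = c := by
            have := hsX x hxX
            rwa [update_self] at this
          have h7 := hwsupp _ hd5 e
          unfold rep at h7 ⊢
          have h8 : ((R.erase x).filter fun p => s p = e) ⊆
              R.filter fun p => (update s x d) p = e := by
            intro p hp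
            obtain ⟨hp1, hp2⟩ := mem_filter.1 hp
            exact mem_filter.2 ⟨mem_of_mem_erase hp1,
              (update_of_ne (ne_of_mem_erase hp1) _ _).trans hp2⟩
          by_cases he : e = c
          · rw [if_pos he] at h7 ⊢
            have h9 := hΓ _ _ h8 h7
            rcases hint _ ((filter_subset _ _).trans (erase_subset _ _)) h9 with h10 | ⟨h10, _⟩
            · exact h10
            · rw [he] at h10
              exact absurd h10 (hnot ∅)
          · rw [if_neg he] at h7 ⊢
            have h11 : (R.filter fun p => (update s x d) p = e) =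
                (R.erase x).filter fun p => s p = e := by
              rw [filter_eq_erase (x := x) (by rw [update_self, hdc]; exact Ne.symm he)]
              exact filter_congr_on (fun p hp => update_of_ne (ne_of_mem_erase hp) _ _) e
            rwa [h11] at h7
        · have h5 := hsupp x hx s hg e
          unfold rep at h5 ⊢
          by_cases he : e = c
          · rw [if_pos he] at h5 ⊢
            rcases hint _ ((filter_subset _ _).trans (erase_subset _ _)) h5 with h10 | ⟨h10, _⟩
            · exact h10
            · rw [he] at h10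
              exact absurd h10 (hnot ∅)
          · rw [if_neg he] at h5 ⊢
            exact h5
      · -- the row does not belong to `X`
        have hxR : x ∈ R \ X := mem_sdiff.2 ⟨hx, hxX⟩
        by_cases hsX : ∀ p ∈ X, s p = c
        · exfalso
          apply hne
          show g x s - ∑ d, wX (update s x d) = 0
          have h5 : ∀ d, wX (update s x d) = h (update s x d) := by
            intro d
            refine if_pos fun p hp => ?_
            rw [update_of_ne (ne_of_mem_of_not_mem hp hxX)]
            exact hsX p hp
          have h6 : put s = s := by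
            funext p
            by_cases hp : p ∈ X
            · rw [hputX s p hp, hsX p hp]
            · exact hputN s p hp
          rw [Finset.sum_congr rfl fun d _ => h5 d, hh x hxR s, h6, sub_self]
        · have h5 : ∀ d, wX (update s x d) = 0 := by
            intro d
            refine if_neg fun h6 => hsX fun p hp => ?_
            have h7 := h6 p hp
            rwa [update_of_ne (ne_of_mem_of_not_mem hp hxX)] at h7
          have h6 : g x s ≠ 0 := by
            intro h7
            apply hne
            show g x s - ∑ d, wX (update s x d) = 0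
            rw [h7, Finset.sum_eq_zero fun d _ => h5 d, sub_zero]
          have h7 := hsupp x hx s h6 e
          unfold rep at h7 ⊢
          by_cases he : e = c
          · rw [if_pos he] at h7 ⊢
            rcases hint _ ((filter_subset _ _).trans (erase_subset _ _)) h7 with h10 | ⟨h10, _⟩
            · exact h10
            · exfalso
              refine hsX fun p hp => ?_
              have := (mem_filter.1 (h10 hp)).2
              rwa [he] at this
          · rw [if_neg he] at h7 ⊢
            exact h7) (by
      intro x hx y hy hxy s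
      show ∑ e, (g x (update s y e) - ∑ d, wX (update (update s y e) x d)) =
        ∑ e, (g y (update s x e) - ∑ d, wX (update (update s x e) y d))
      rw [Finset.sum_sub_distrib, Finset.sum_sub_distrib, hcomp x hx y hy hxy s]
      congr 1
      rw [Finset.sum_comm]
      refine Finset.sum_congr rfl fun d _ => Finset.sum_congr rfl fun e _ => ?_
      rw [hb x s y hxy e d])
  refine ⟨fun s => w' s + wX s, ?_, ?_, ?_⟩
  · intro s s' hss
    show _ + _ = _ + _
    rw [hw1 s s' hss, hwdep s s' hss]
  · intro s hne e
    by_cases h5 : w' s = 0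
    · have h6 : wX s ≠ 0 := by
        intro h7
        apply hne
        show w' s + wX s = 0
        rw [h5, h7, add_zero]
      exact hwsupp s h6 e
    · have h6 := hw2 s h5 e
      unfold rep at h6 ⊢
      by_cases he : e = c
      · rw [if_pos he] at h6 ⊢
        exact hle _ h6
      · rw [if_neg he] at h6 ⊢
        exact h6
  · intro x hx s
    show ∑ d, (w' (update s x d) + wX (update s x d)) = g x s
    rw [Finset.sum_add_distrib, hw3 x hx s]
    ring

/-! ### Comparison of two complexes in a column -/

/-- `Good` only depends on the sets of rows in play. -/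
theorem good_congr {D D' : C → Finset P → Prop} {R : Finset P}
    (h : ∀ c, ∀ A, A ⊆ R → (D c A ↔ D' c A)) (hD : Good D R) : Good D' R := by
  intro g hdep hsupp hcomp
  obtain ⟨w, h1, h2, h3⟩ := hD g hdep (fun x hx s hs c =>
    (h c _ ((filter_subset _ _).trans (erase_subset _ _))).2 (hsupp x hx s hs c)) hcomp
  exact ⟨w, h1, fun s hs c => (h c _ (filter_subset _ _)).1 (h2 s hs c), h3⟩

/-- A face of the column `c` outside of `Γ'` costs nothing if the rest is good without this
column. -/
theorem good_cmp {D : C → Finset P → Prop} {R : Finset P} {c : C} {Γ Γ' : Finset P → Prop}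
    (hΓ : Down Γ) (hΓ' : Down Γ') (hle : ∀ A, Γ' A → Γ A)
    (hA : ∀ A, A ⊆ R → Γ A → ¬ Γ' A → Good (rep D c fun B => B = ∅) (R \ A))
    (h : Good (rep D c Γ') R) : Good (rep D c Γ) R := by
  classical
  obtain ⟨n, hn⟩ : ∃ n, {A : Finset P | A ⊆ R ∧ Γ A ∧ ¬ Γ' A}.ncard = n := ⟨_, rfl⟩
  have hfin : ∀ Γ' : Finset P → Prop, {A : Finset P | A ⊆ R ∧ Γ A ∧ ¬ Γ' A}.Finite := fun Γ' =>
    R.powerset.finite_toSet.subset fun A hA => mem_coe.2 (mem_powerset.2 hA.1)
  induction n using Nat.strong_induction_on generalizing Γ' with
  | _ n ih =>
    by_cases hemp : ∃ A, A ⊆ R ∧ Γ A ∧ ¬ Γ' A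
    · -- a smallest face outside of `Γ'`
      obtain ⟨A, ⟨hAR, hAΓ, hAΓ'⟩, hmin⟩ : ∃ A, (A ⊆ R ∧ Γ A ∧ ¬ Γ' A) ∧
          ∀ B, (B ⊆ R ∧ Γ B ∧ ¬ Γ' B) → A.card ≤ B.card := by
        obtain ⟨A0, hA0⟩ := hemp
        obtain ⟨A, hA1, hA2⟩ := Finset.exists_min_image
          (R.powerset.filter fun A => Γ A ∧ ¬ Γ' A) Finset.card
          ⟨A0, mem_filter.2 ⟨mem_powerset.2 hA0.1, hA0.2⟩⟩
        obtain ⟨hA3, hA4⟩ := mem_filter.1 hA1
        exact ⟨A, ⟨mem_powerset.1 hA3, hA4⟩,
          fun B hB => hA2 B (mem_filter.2 ⟨mem_powerset.2 hB.1, hB.2⟩)⟩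
      have hdown : Down fun B => Γ' B ∨ B = A := by
        rintro B B' hBB (h1 | rfl)
        · exact Or.inl (hΓ' _ _ hBB h1)
        · by_cases h2 : B = B'
          · exact Or.inr h2
          · left
            by_contra h3
            have h4 := hmin B ⟨hBB.trans hAR, hΓ _ _ hBB hAΓ, h3⟩
            exact h2 (Finset.eq_of_subset_of_card_le hBB h4)
      have hgood : Good (rep D c fun B => Γ' B ∨ B = A) R := by
        refine good_int (T := ∅) hAR hΓ' hdown hAΓ' (fun B hB => Or.inl hB) ?_ ?_ h ?_
        · rintro B _ (h1 | rfl)
          · exact Or.inl h1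
          · exact Or.inr ⟨Subset.refl _, subset_union_left⟩
        · exact Or.inr (union_empty A)
        · refine good_congr ?_ (hA A hAR hAΓ hAΓ')
          intro e B _
          unfold rep
          by_cases he : e = c
          · rw [if_pos he, if_pos he]
            exact subset_empty.symm
          · rw [if_neg he, if_neg he]
      refine ih _ ?_ hdown ?_ ?_ hgood rfl
      · rw [← hn]
        refine Set.ncard_lt_ncard ⟨?_, ?_⟩ (hfin Γ')
        · rintro B ⟨h1, h2, h3⟩
          exact ⟨h1, h2, fun h4 => h3 (Or.inl h4)⟩
        · intro hsub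
          have h5 := hsub (show A ∈ {A : Finset P | A ⊆ R ∧ Γ A ∧ ¬ Γ' A} from ⟨hAR, hAΓ, hAΓ'⟩)
          exact h5.2.2 (Or.inr rfl)
      · rintro B (h1 | rfl)
        · exact hle _ h1
        · exact hAΓ
      · intro B hB h1 h2
        exact hA B hB h1 fun h3 => h2 (Or.inl h3)
    · push Not at hemp
      refine good_congr ?_ h
      intro e A hAR
      unfold rep
      by_cases he : e = c
      · rw [if_pos he, if_pos he]
        exact ⟨hle A, fun h1 => by
          by_contra h2
          exact h2 (hemp A hAR h1)⟩
      · rw [if_neg he, if_neg he]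

end Pool.Agent.KAL
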