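import Mathlib

/-! # Gordan's theorem and conic combinations -/

set_option autoImplicit false

namespace Pool.Agent.KAL

open Finset Module

/-- Gordan: finitely many linear functionals are positive at a common point, or there is a
nontrivial relation with nonnegative coefficients. -/
theorem gordan {E ι : Type*} [AddCommGroup E] [Module ℝ E] (s : Finset ι) (f : ι → Dual ℝ E)
    (h : ∀ l : E, ∃ i ∈ s, f i l ≤ 0) :
    ∃ c : ι → ℝ, (∀ i ∈ s, 0 ≤ c i) ∧ (∃ i ∈ s, 0 < c i) ∧ ∑ i ∈ s, c i • f i = 0 := by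
  classical
  let F : E →ₗ[ℝ] (s → ℝ) := LinearMap.pi fun i => f i
  let O : Set (s → ℝ) := {a | ∀ i, 0 < a i}
  have hO1 : Convex ℝ O := by
    intro a ha b hb u v hu hv huv i
    show 0 < u * a i + v * b i
    rcases eq_or_lt_of_le hu with h0 | h0
    · have : v = 1 := by linarith
      rw [← h0, this]
      have := hb i
      linarith
    · have h1 := mul_pos h0 (ha i)
      have h2 := mul_nonneg hv (hb i).le
      linarith
  have hO2 : IsOpen O := by
    have : O = ⋂ i : s, {a | 0 < a i} := by
      ext a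
      simp [O]
    rw [this]
    exact isOpen_iInter_of_finite fun i => isOpen_lt continuous_const (continuous_apply i)
  have hdisj : Disjoint O (LinearMap.range F : Set (s → ℝ)) := by
    rw [Set.disjoint_left]
    rintro _ ha ⟨l, rfl⟩
    obtain ⟨i, hi, hle⟩ := h l
    exact absurd (ha ⟨i, hi⟩) (not_lt.2 hle)
  obtain ⟨φ, u, h1, h2⟩ := geometric_hahn_banach_open hO1 hO2
    (LinearMap.range F).convex hdisj
  have hu : u ≤ 0 := by
    have := h2 0 (LinearMap.range F).zero_mem
    rwa [map_zero] at this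
  have hr : ∀ l : E, φ (F l) = 0 := by
    intro l
    by_contra hne
    have h3 := h2 (F (((u - 1) / φ (F l)) • l)) ⟨_, rfl⟩
    rw [map_smul, map_smul, smul_eq_mul, div_mul_cancel₀ _ hne] at h3
    linarith
  have hneg : ∀ a ∈ O, φ a < 0 := fun a ha => (h1 a ha).trans_le hu
  have hφ : ∀ a : s → ℝ, φ a = ∑ i, a i * φ (Pi.single i 1) := by
    intro a
    conv_lhs => rw [pi_eq_sum_univ' a]
    rw [map_sum]
    refine Finset.sum_congr rfl fun i _ => ?_
    rw [map_smul, smul_eq_mul]
  have hle : ∀ i : s, φ (Pi.single i 1) ≤ 0 := by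
    intro i
    by_contra hcon
    push Not at hcon
    -- a point of the orthant close to the ray
    have h3 : ∀ t : ℝ, 0 < t → t * φ (Pi.single i 1) + φ (fun _ => 1) < 0 := by
      intro t ht
      have h4 := hneg (t • Pi.single i 1 + fun _ => 1) (by
        intro j
        show 0 < t * (Pi.single i 1 : s → ℝ) j + 1
        have : 0 ≤ (Pi.single i 1 : s → ℝ) j := by
          rw [Pi.single_apply]
          split_ifs <;> norm_num
        positivity)
      rwa [map_add, map_smul, smul_eq_mul] at h4
    have h5 := h3 ((|φ (fun _ => 1)| + 1) / φ (Pi.single i 1)) (by positivity)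
    rw [div_mul_cancel₀ _ hcon.ne'] at h5
    have := neg_abs_le (φ fun _ => 1)
    linarith
  refine ⟨fun i => if hi : i ∈ s then -φ (Pi.single ⟨i, hi⟩ 1) else 0, ?_, ?_, ?_⟩
  · intro i hi
    show 0 ≤ if hi : i ∈ s then -φ (Pi.single ⟨i, hi⟩ 1) else 0
    rw [dif_pos hi]
    linarith [hle ⟨i, hi⟩]
  · by_contra hcon
    push Not at hcon
    have h3 := hneg (fun _ => 1) fun _ => one_pos
    rw [hφ, Finset.sum_eq_zero] at h3
    · exact lt_irrefl _ h3
    · intro i _
      have h4 := hcon i.1 i.2
      rw [dif_pos i.2] at h4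
      have h5 := hle i
      have : φ (Pi.single i 1) = 0 := by
        have h6 : (⟨i.1, i.2⟩ : s) = i := rfl
        rw [h6] at h4
        linarith
      rw [this, mul_zero]
  · apply LinearMap.ext
    intro l
    have h3 := hr l
    rw [hφ] at h3
    rw [LinearMap.sum_apply, LinearMap.zero_apply, ← Finset.sum_coe_sort s]
    have h4 : ∀ i : s, ((if hi : (i : ι) ∈ s then -φ (Pi.single ⟨i, hi⟩ 1) else 0) • f i) l =
        -(F l i * φ (Pi.single i 1)) := by
      intro i
      rw [dif_pos i.2, LinearMap.smul_apply, smul_eq_mul]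
      show -φ (Pi.single i 1) * f i l = -(f i l * φ (Pi.single i 1))
      ring
    rw [Finset.sum_congr rfl fun i _ => h4 i, Finset.sum_neg_distrib, h3, neg_zero]

/-- A nonnegative combination is a positive combination of linearly independent vectors. -/
theorem cone_cara {V ι : Type*} [AddCommGroup V] [Module ℝ V] (x : ι → V) (v : V)
    (A : Finset ι) : ∀ c : ι → ℝ, (∀ i ∈ A, 0 ≤ c i) → ∑ i ∈ A, c i • x i = v →
    ∃ B, B ⊆ A ∧ ∃ c' : ι → ℝ, (∀ i ∈ B, 0 < c' i) ∧ ∑ i ∈ B, c' i • x i = v ∧
      LinearIndependent ℝ (fun i : B => x i) := by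
  classical
  obtain ⟨n, hn⟩ : ∃ n, A.card = n := ⟨_, rfl⟩
  induction n using Nat.strong_induction_on generalizing A with
  | _ n ih =>
    intro c hc hv
    -- remove an element whose coefficient may be made zero
    have hrem : ∀ c : ι → ℝ, (∀ i ∈ A, 0 ≤ c i) → ∑ i ∈ A, c i • x i = v →
        (∃ i ∈ A, c i = 0) → ∃ B, B ⊆ A ∧ ∃ c' : ι → ℝ, (∀ i ∈ B, 0 < c' i) ∧
          ∑ i ∈ B, c' i • x i = v ∧ LinearIndependent ℝ (fun i : B => x i) := by
      rintro c hc hv ⟨i, hi, hci⟩
      have h1 : ∑ j ∈ A.erase i, c j • x j = v := by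
        rw [← hv, ← Finset.add_sum_erase A _ hi, hci, zero_smul, zero_add]
      obtain ⟨B, hB, c', h2, h3, h4⟩ := ih (A.erase i).card
        (by rw [← hn]; exact card_erase_lt_of_mem hi) (A.erase i) rfl c
        (fun j hj => hc j (mem_of_mem_erase hj)) h1
      exact ⟨B, hB.trans (erase_subset _ _), c', h2, h3, h4⟩
    by_cases hz : ∃ i ∈ A, c i = 0
    · exact hrem c hc hv hz
    push Not at hz
    have hcpos : ∀ i ∈ A, 0 < c i := fun i hi => lt_of_le_of_ne (hc i hi) (Ne.symm (hz i hi))
    by_cases hli : LinearIndependent ℝ (fun i : A => x i)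
    · exact ⟨A, Subset.refl A, c, hcpos, hv, hli⟩
    · -- a relation with a positive coefficient
      rw [Fintype.linearIndependent_iff] at hli
      push Not at hli
      obtain ⟨b, hb, i0, hi0⟩ := hli
      let b' : ι → ℝ := fun i => if hi : i ∈ A then b ⟨i, hi⟩ else 0
      have hb' : ∑ i ∈ A, b' i • x i = 0 := by
        rw [← hb, ← Finset.sum_coe_sort A]
        refine Finset.sum_congr rfl fun i _ => ?_
        simp only [b', dif_pos i.2]
      have hb0 : b' i0 ≠ 0 := by
        simp only [b', dif_pos i0.2]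
        exact hi0
      obtain ⟨d, hd, i1, hi1, hd1⟩ : ∃ d : ι → ℝ, ∑ i ∈ A, d i • x i = 0 ∧ ∃ i ∈ A, 0 < d i := by
        rcases lt_or_gt_of_ne hb0 with h1 | h1
        · refine ⟨fun i => -b' i, ?_, i0, i0.2, by linarith⟩
          rw [Finset.sum_congr rfl fun i _ => neg_smul (b' i) (x i), Finset.sum_neg_distrib, hb',
            neg_zero]
        · exact ⟨b', hb', i0, i0.2, h1⟩
      obtain ⟨i2, hi2, hmin⟩ := Finset.exists_min_image (A.filter fun i => 0 < d i)
        (fun i => c i / d i) ⟨i1, mem_filter.2 ⟨hi1, hd1⟩⟩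
      obtain ⟨hi2A, hd2⟩ := mem_filter.1 hi2
      set t := c i2 / d i2 with ht
      have htpos : 0 < t := div_pos (hcpos i2 hi2A) hd2
      refine hrem (fun i => c i - t * d i) ?_ ?_ ⟨i2, hi2A, ?_⟩
      · intro i hi
        show 0 ≤ c i - t * d i
        by_cases hdi : 0 < d i
        · have h1 := hmin i (mem_filter.2 ⟨hi, hdi⟩)
          have h2 : t * d i ≤ c i := by
            rw [← le_div_iff₀ hdi]
            exact h1
          linarith
        · push Not at hdi
          have h1 := hc i hi
          have h2 : t * d i ≤ 0 := mul_nonpos_of_nonneg_of_nonpos htpos.le hdi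
          linarith
      · have h1 : ∀ i ∈ A, (c i - t * d i) • x i = c i • x i - t • d i • x i := by
          intro i _
          rw [sub_smul, mul_smul]
        rw [Finset.sum_congr rfl h1, Finset.sum_sub_distrib, hv, ← Finset.smul_sum, hd,
          smul_zero, sub_zero]
      · show c i2 - t * d i2 = 0
        rw [ht, div_mul_cancel₀ _ hd2.ne', sub_self]

end Pool.Agent.KAL
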