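import Pool.Agent.Lib_helper19.GC2.Gordan
import Pool.Agent.Lib_helper19.GC2.Rec

/-! # The sweep -/

set_option autoImplicit false

namespace Pool.Agent.KAL

open Finset Module

variable {P E : Type*} [DecidableEq P] [AddCommGroup E] [Module ℝ E]

omit [DecidableEq P] in
/-- Gordan's theorem for a finite set of functionals and three more. -/
theorem gord3 (x : P → Dual ℝ E) (A : Finset P) (f0 f1 f2 : Dual ℝ E)
    (h : ¬ ∃ l : E, (∀ p ∈ A, 0 < x p l) ∧ 0 < f0 l ∧ 0 < f1 l ∧ 0 < f2 l) :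
    ∃ (c : P → ℝ) (α β γ : ℝ), (∀ p ∈ A, 0 ≤ c p) ∧ 0 ≤ α ∧ 0 ≤ β ∧ 0 ≤ γ ∧
      ((∃ p ∈ A, 0 < c p) ∨ 0 < α ∨ 0 < β ∨ 0 < γ) ∧
      ∑ p ∈ A, c p • x p + α • f0 + β • f1 + γ • f2 = 0 := by
  classical
  obtain ⟨c, h1, ⟨i, hi, hpos⟩, h3⟩ := gordan (A.disjSum (univ : Finset (Fin 3)))
    (Sum.elim x ![f0, f1, f2]) (by
      intro l
      by_contra hcon
      push Not at hcon
      refine h ⟨l, fun p hp => hcon (Sum.inl p) (inl_mem_disjSum.2 hp), ?_, ?_, ?_⟩
      · exact hcon (Sum.inr 0) (inr_mem_disjSum.2 (mem_univ _))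
      · exact hcon (Sum.inr 1) (inr_mem_disjSum.2 (mem_univ _))
      · exact hcon (Sum.inr 2) (inr_mem_disjSum.2 (mem_univ _)))
  have hin : ∀ j : Fin 3, Sum.inr j ∈ A.disjSum (univ : Finset (Fin 3)) :=
    fun j => inr_mem_disjSum.2 (mem_univ _)
  refine ⟨fun p => c (Sum.inl p), c (Sum.inr 0), c (Sum.inr 1), c (Sum.inr 2),
    fun p hp => h1 _ (inl_mem_disjSum.2 hp), h1 _ (hin 0), h1 _ (hin 1), h1 _ (hin 2), ?_, ?_⟩
  · rcases i with p | j
    · exact Or.inl ⟨p, inl_mem_disjSum.1 hi, hpos⟩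
    · fin_cases j
      · exact Or.inr (Or.inl hpos)
      · exact Or.inr (Or.inr (Or.inl hpos))
      · exact Or.inr (Or.inr (Or.inr hpos))
  · rw [Finset.sum_disjSum, Fin.sum_univ_three] at h3
    rw [← h3]
    simp only [Sum.elim_inl, Sum.elim_inr]
    show _ = _ + (_ • f0 + _ • f1 + _ • f2)
    abel

/-- The hypotheses of the sweep. -/
structure Swp (r : ℕ) (R : Finset P) (x : P → Dual ℝ E) (g h : Dual ℝ E) : Prop where
  hr : 1 ≤ r
  dim : finrank ℝ E = r + 1
  G1 : ∀ A, A ⊆ R → A.card ≤ r + 1 → LinearIndependent ℝ (fun p : A => x p)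
  G2 : ∀ A, A ⊆ R → A.card < r → h ∉ Submodule.span ℝ (insert g (x '' (A : Set P)))
  G2' : ∀ A, A ⊆ R → A.card ≤ r → g ∉ Submodule.span ℝ (x '' (A : Set P))
  G0 : ∀ A, A ⊆ R → A.card ≤ r → h ∉ Submodule.span ℝ (x '' (A : Set P))

/-- The complexes of the sweep. -/
def Gm (x : P → Dual ℝ E) (g h : Dual ℝ E) (a s : ℝ) (A : Finset P) : Prop :=
  ∃ l : E, 0 < g l ∧ a * g l < h l ∧ h l < s * g l ∧ ∀ p ∈ A, 0 < x p l

omit [DecidableEq P] in
theorem Gm.down (x : P → Dual ℝ E) (g h : Dual ℝ E) (a s : ℝ) : Down (Gm x g h a s) :=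
  fun _ _ hAB ⟨l, h1, h2, h3, h4⟩ => ⟨l, h1, h2, h3, fun p hp => h4 p (hAB hp)⟩

/-- `X` is the set of tight rows of a critical point of value `σ`. -/
def Act (r : ℕ) (R : Finset P) (x : P → Dual ℝ E) (g h : Dual ℝ E) (σ : ℝ) (X : Finset P) :
    Prop :=
  X ⊆ R ∧ X.card = r ∧ ∃ c : P → ℝ, (∀ p ∈ X, 0 < c p) ∧ h - σ • g = ∑ p ∈ X, c p • x p

omit [DecidableEq P] in
theorem sum_mem_span (x : P → Dual ℝ E) (A : Finset P) (c : P → ℝ) :
    ∑ p ∈ A, c p • x p ∈ Submodule.span ℝ (x '' (A : Set P)) :=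
  Submodule.sum_mem _ fun p hp => Submodule.smul_mem _ _
    (Submodule.subset_span ⟨p, mem_coe.2 hp, rfl⟩)

omit [DecidableEq P] in
theorem Swp.neg {r : ℕ} {R : Finset P} {x : P → Dual ℝ E} {g h : Dual ℝ E}
    (hS : Swp r R x g h) : Swp r R x g (-h) where
  hr := hS.hr
  dim := hS.dim
  G1 := hS.G1
  G2 := fun A hA hc hmem => hS.G2 A hA hc (by simpa using Submodule.neg_mem _ hmem)
  G2' := hS.G2'
  G0 := fun A hA hc hmem => hS.G0 A hA hc (by simpa using Submodule.neg_mem _ hmem)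

omit [DecidableEq P] in
/-- The dual form of `¬ Gm a τ A`. -/
theorem farkas1 {x : P → Dual ℝ E} {g h : Dual ℝ E} {a τ : ℝ} (haτ : a < τ) {A : Finset P}
    {l0 : E} (hg : 0 < g l0) (ha : a * g l0 < h l0) (hA : ∀ p ∈ A, 0 < x p l0)
    (hn : ¬ Gm x g h a τ A) :
    ∃ τ' : ℝ, τ ≤ τ' ∧ ∃ c : P → ℝ, (∀ p ∈ A, 0 ≤ c p) ∧ h - τ' • g = ∑ p ∈ A, c p • x p := by
  obtain ⟨c, α, β, γ, hc, hα, hβ, hγ, hpos, hrel⟩ := gord3 x A g (h - a • g) (τ • g - h) (by
    rintro ⟨l, h1, h2, h3, h4⟩
    refine hn ⟨l, h2, ?_, ?_, h1⟩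
    · rw [LinearMap.sub_apply, LinearMap.smul_apply, smul_eq_mul] at h3
      linarith
    · rw [LinearMap.sub_apply, LinearMap.smul_apply, smul_eq_mul] at h4
      linarith)
  have hev := congrArg (fun f : Dual ℝ E => f l0) hrel
  simp only [LinearMap.add_apply, LinearMap.smul_apply, LinearMap.sub_apply, smul_eq_mul,
    LinearMap.zero_apply, LinearMap.sum_apply] at hev
  have hsm : 0 ≤ ∑ p ∈ A, c p * x p l0 :=
    Finset.sum_nonneg fun p hp => mul_nonneg (hc p hp) (hA p hp).le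
  have hb : 0 < h l0 - a * g l0 := by linarith
  have hγ0 : 0 < γ := by
    rcases eq_or_lt_of_le hγ with h0 | h0
    · exfalso
      rw [← h0, zero_mul, add_zero] at hev
      have e1 : 0 ≤ α * g l0 := mul_nonneg hα hg.le
      have e2 : 0 ≤ β * (h l0 - a * g l0) := mul_nonneg hβ hb.le
      rcases hpos with ⟨p, hp, hcp⟩ | h5 | h5 | h5
      · have : 0 < ∑ p ∈ A, c p * x p l0 :=
          Finset.sum_pos' (fun p hp => mul_nonneg (hc p hp) (hA p hp).le)
            ⟨p, hp, mul_pos hcp (hA p hp)⟩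
        linarith
      · have := mul_pos h5 hg
        linarith
      · have := mul_pos h5 hb
        linarith
      · linarith
    · exact h0
  have hγβ : 0 < γ - β := by
    have e1 : (γ - β) * (h l0 - a * g l0) =
        ∑ p ∈ A, c p * x p l0 + (α + γ * (τ - a)) * g l0 := by
      linear_combination (-1 : ℝ) * hev
    have e2 : 0 < (α + γ * (τ - a)) * g l0 := by
      have : 0 < γ * (τ - a) := mul_pos hγ0 (by linarith)
      have : 0 < α + γ * (τ - a) := by linarith
      exact mul_pos this hg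
    have e3 : 0 < (γ - β) * (h l0 - a * g l0) := by
      rw [e1]
      linarith
    exact (mul_pos_iff_of_pos_right hb).1 e3
  refine ⟨(α - β * a + γ * τ) / (γ - β), ?_, fun p => c p / (γ - β),
    fun p hp => div_nonneg (hc p hp) hγβ.le, ?_⟩
  · rw [le_div_iff₀ hγβ]
    have : 0 ≤ β * (τ - a) := mul_nonneg hβ (by linarith)
    nlinarith
  · have e1 : (γ - β) • (h - ((α - β * a + γ * τ) / (γ - β)) • g) = ∑ p ∈ A, c p • x p := by
      rw [smul_sub, smul_smul, mul_div_cancel₀ _ hγβ.ne']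
      have e2 : ∑ p ∈ A, c p • x p = -(α • g + β • (h - a • g) + γ • (τ • g - h)) := by
        rw [eq_neg_iff_add_eq_zero, ← hrel]
        abel
      rw [e2]
      module
    have e3 : ∑ p ∈ A, (c p / (γ - β)) • x p = (γ - β)⁻¹ • ∑ p ∈ A, c p • x p := by
      rw [Finset.smul_sum]
      refine Finset.sum_congr rfl fun p _ => ?_
      rw [smul_smul, div_eq_inv_mul]
    rw [e3, ← e1, smul_smul, inv_mul_cancel₀ hγβ.ne', one_smul]

omit [DecidableEq P] in
/-- The dual form at the value `0`, without a lower bound. -/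
theorem farkas0 {x : P → Dual ℝ E} {g h : Dual ℝ E} {A : Finset P}
    {l0 : E} (hg : 0 < g l0) (ha : 0 < h l0) (hA : ∀ p ∈ A, 0 < x p l0)
    (hn : ¬ ∃ l : E, h l = 0 ∧ 0 < g l ∧ ∀ p ∈ A, 0 < x p l) :
    ∃ τ' : ℝ, 0 ≤ τ' ∧ ∃ c : P → ℝ, (∀ p ∈ A, 0 ≤ c p) ∧ h - τ' • g = ∑ p ∈ A, c p • x p := by
  obtain ⟨c, α, β, γ, hc, hα, hβ, hγ, hpos, hrel⟩ := gord3 x A g g (-h) (by
    rintro ⟨l, h1, h2, _, h4⟩
    rw [LinearMap.neg_apply] at h4
    -- a convex combination of `l` and `l0` on which `h` vanishes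
    refine hn ⟨h l0 • l + (-h l) • l0, ?_, ?_, ?_⟩
    · rw [map_add, map_smul, map_smul, smul_eq_mul, smul_eq_mul]
      ring
    · rw [map_add, map_smul, map_smul, smul_eq_mul, smul_eq_mul]
      have e1 := mul_pos ha h2
      have e2 := mul_pos h4 hg
      linarith
    · intro p hp
      rw [map_add, map_smul, map_smul, smul_eq_mul, smul_eq_mul]
      have e1 := mul_pos ha (h1 p hp)
      have e2 := mul_pos h4 (hA p hp)
      linarith)
  have hev := congrArg (fun f : Dual ℝ E => f l0) hrel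
  simp only [LinearMap.add_apply, LinearMap.smul_apply, LinearMap.neg_apply, smul_eq_mul,
    LinearMap.zero_apply, LinearMap.sum_apply] at hev
  have hγ0 : 0 < γ := by
    rcases eq_or_lt_of_le hγ with h0 | h0
    · exfalso
      rw [← h0, zero_mul, add_zero] at hev
      have hsm : 0 ≤ ∑ p ∈ A, c p * x p l0 :=
        Finset.sum_nonneg fun p hp => mul_nonneg (hc p hp) (hA p hp).le
      have e1 : 0 ≤ α * g l0 := mul_nonneg hα hg.le
      have e2 : 0 ≤ β * g l0 := mul_nonneg hβ hg.le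
      rcases hpos with ⟨p, hp, hcp⟩ | h5 | h5 | h5
      · have : 0 < ∑ p ∈ A, c p * x p l0 :=
          Finset.sum_pos' (fun p hp => mul_nonneg (hc p hp) (hA p hp).le)
            ⟨p, hp, mul_pos hcp (hA p hp)⟩
        linarith
      · have := mul_pos h5 hg
        linarith
      · have := mul_pos h5 hg
        linarith
      · linarith
    · exact h0
  refine ⟨(α + β) / γ, div_nonneg (by linarith) hγ, fun p => c p / γ,
    fun p hp => div_nonneg (hc p hp) hγ, ?_⟩
  have e1 : γ • (h - ((α + β) / γ) • g) = ∑ p ∈ A, c p • x p := by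
    rw [smul_sub, smul_smul, mul_div_cancel₀ _ hγ0.ne']
    have e2 : ∑ p ∈ A, c p • x p = -(α • g + β • g + γ • -h) := by
      rw [eq_neg_iff_add_eq_zero, ← hrel]
      abel
    rw [e2]
    module
  have e3 : ∑ p ∈ A, (c p / γ) • x p = γ⁻¹ • ∑ p ∈ A, c p • x p := by
    rw [Finset.smul_sum]
    refine Finset.sum_congr rfl fun p _ => ?_
    rw [smul_smul, div_eq_inv_mul]
  rw [e3, ← e1, smul_smul, inv_mul_cancel₀ hγ0.ne', one_smul]

section sweep

variable [FiniteDimensional ℝ E] {r : ℕ} {R : Finset P} {x : P → Dual ℝ E} {g h : Dual ℝ E}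

/-- A nonnegative representation yields a critical value. -/
theorem dual1 (hS : Swp r R x g h) {A : Finset P} (hAR : A ⊆ R) {l0 : E} (hg : 0 < g l0)
    (hA : ∀ p ∈ A, 0 < x p l0) {τ : ℝ} {c : P → ℝ} (hc : ∀ p ∈ A, 0 ≤ c p)
    (hrel : h - τ • g = ∑ p ∈ A, c p • x p) :
    ∃ X, X ⊆ A ∧ ∃ σ : ℝ, τ ≤ σ ∧ Act r R x g h σ X ∧ σ * g l0 < h l0 := by
  obtain ⟨B, hBA, d, hd, hdrel, hli⟩ := cone_cara x (h - τ • g) A c hc hrel.symm
  have hcard : B.card ≤ r + 1 := by
    have h1 := hli.fintype_card_le_finrank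
    rwa [Fintype.card_coe, Subspace.dual_finrank_eq, hS.dim] at h1
  -- the last inequality
  have hlast : ∀ (X : Finset P) (σ : ℝ) (e : P → ℝ), X ⊆ A → X.card = r → (∀ p ∈ X, 0 < e p) →
      h - σ • g = ∑ p ∈ X, e p • x p → σ * g l0 < h l0 := by
    intro X σ e hXA hXr he hrel'
    have h1 := congrArg (fun f : Dual ℝ E => f l0) hrel'
    simp only [LinearMap.smul_apply, LinearMap.sub_apply, smul_eq_mul,
      LinearMap.sum_apply] at h1
    have h2 : 0 < ∑ p ∈ X, e p * x p l0 := by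
      refine Finset.sum_pos (fun p hp => mul_pos (he p hp) (hA p (hXA hp))) ?_
      rw [← card_pos, hXr]
      exact hS.hr
    linarith
  -- fewer than `r` rows are impossible
  have hsmall : ∀ (X : Finset P) (σ : ℝ) (e : P → ℝ), X ⊆ R → X.card < r →
      h - σ • g ≠ ∑ p ∈ X, e p • x p := by
    intro X σ e hXR hXr heq
    apply hS.G2 X hXR hXr
    have h1 : h = σ • g + ∑ p ∈ X, e p • x p := by
      rw [← heq]
      abel
    rw [h1]
    refine Submodule.add_mem _ (Submodule.smul_mem _ _ (Submodule.subset_span (Set.mem_insert _ _))) ?_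
    exact Submodule.span_mono (Set.subset_insert _ _) (sum_mem_span x X e)
  have hBR : B ⊆ R := hBA.trans hAR
  by_cases hBr : B.card = r
  · exact ⟨B, hBA, τ, le_refl _, ⟨hBR, hBr, d, hd, hdrel.symm⟩,
      hlast B τ d hBA hBr hd hdrel.symm⟩
  have hBr1 : B.card = r + 1 := by
    by_contra hne
    exact hsmall B τ d hBR (by omega) hdrel.symm
  -- `B` is a basis
  have htop : Submodule.span ℝ (Set.range fun p : B => x p) = ⊤ := by
    apply hli.span_eq_top_of_card_eq_finrank'
    rw [Fintype.card_coe, Subspace.dual_finrank_eq, hS.dim, hBr1]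
  have hgm : g ∈ Submodule.span ℝ (Set.range fun p : B => x p) := by
    rw [htop]
    trivial
  obtain ⟨γ, hγ⟩ := (Submodule.mem_span_range_iff_exists_fun ℝ).1 hgm
  let γ' : P → ℝ := fun p => if hp : p ∈ B then γ ⟨p, hp⟩ else 0
  have hγ' : g = ∑ p ∈ B, γ' p • x p := by
    rw [← hγ, ← Finset.sum_coe_sort B]
    refine Finset.sum_congr rfl fun p _ => ?_
    simp only [γ', dif_pos p.2]
  obtain ⟨p1, hp1, hγp1⟩ : ∃ p ∈ B, 0 < γ' p := by
    by_contra hcon
    push Not at hcon
    have h1 := congrArg (fun f : Dual ℝ E => f l0) hγ'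
    simp only [LinearMap.smul_apply, smul_eq_mul, LinearMap.sum_apply] at h1
    have h2 : ∑ p ∈ B, γ' p * x p l0 ≤ 0 :=
      Finset.sum_nonpos fun p hp => mul_nonpos_of_nonpos_of_nonneg (hcon p hp) (hA p (hBA hp)).le
    linarith
  obtain ⟨p0, hp0, hmin⟩ := Finset.exists_min_image (B.filter fun p => 0 < γ' p)
    (fun p => d p / γ' p) ⟨p1, mem_filter.2 ⟨hp1, hγp1⟩⟩
  obtain ⟨hp0B, hγp0⟩ := mem_filter.1 hp0
  set t := d p0 / γ' p0 with ht
  have htpos : 0 < t := div_pos (hd p0 hp0B) hγp0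
  have hnn : ∀ p ∈ B, 0 ≤ d p - t * γ' p := by
    intro p hp
    by_cases hγp : 0 < γ' p
    · have h1 : t * γ' p ≤ d p := by
        rw [← le_div_iff₀ hγp]
        exact hmin p (mem_filter.2 ⟨hp, hγp⟩)
      linarith
    · push Not at hγp
      have h1 := hd p hp
      have h2 : t * γ' p ≤ 0 := mul_nonpos_of_nonneg_of_nonpos htpos.le hγp
      linarith
  have hz : d p0 - t * γ' p0 = 0 := by
    rw [ht, div_mul_cancel₀ _ hγp0.ne', sub_self]
  have hrel1 : h - (τ + t) • g = ∑ p ∈ B, (d p - t * γ' p) • x p := by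
    have h1 : ∀ p ∈ B, (d p - t * γ' p) • x p = d p • x p - t • γ' p • x p := by
      intro p _
      module
    rw [Finset.sum_congr rfl h1, Finset.sum_sub_distrib, hdrel, ← Finset.smul_sum, ← hγ']
    module
  have hrel2 : h - (τ + t) • g = ∑ p ∈ B.erase p0, (d p - t * γ' p) • x p := by
    rw [hrel1, ← Finset.add_sum_erase B _ hp0B, hz, zero_smul, zero_add]
  have hcard2 : (B.erase p0).card = r := by
    rw [card_erase_of_mem hp0B, hBr1]
    rfl
  have hpos2 : ∀ p ∈ B.erase p0, 0 < d p - t * γ' p := by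
    intro p hp
    refine lt_of_le_of_ne (hnn p (mem_of_mem_erase hp)) fun h0 => ?_
    refine hsmall ((B.erase p0).erase p) (τ + t) (fun p => d p - t * γ' p)
      ((erase_subset _ _).trans ((erase_subset _ _).trans hBR)) ?_ ?_
    · rw [card_erase_of_mem hp, hcard2]
      have := hS.hr
      omega
    · rw [hrel2, ← Finset.add_sum_erase (B.erase p0) _ hp, ← h0, zero_smul, zero_add]
  have hsub2 : B.erase p0 ⊆ A := (erase_subset _ _).trans hBA
  exact ⟨B.erase p0, hsub2, τ + t, by linarith, ⟨hsub2.trans hAR, hcard2, _, hpos2, hrel2⟩,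
    hlast _ _ _ hsub2 hcard2 hpos2 hrel2⟩

omit [DecidableEq P] in
/-- The critical point. -/
theorem exists_vertex (hS : Swp r R x g h) {X : Finset P} (hX : X ⊆ R) (hXr : X.card = r) :
    ∃ v : E, g v = 1 ∧ ∀ p ∈ X, x p v = 0 := by
  set S := Submodule.span ℝ (x '' (X : Set P)) with hSdef
  have hgS : g ∉ S := hS.G2' X hX hXr.le
  have h1 : ∃ v ∈ S.dualCoannihilator, g v ≠ 0 := by
    by_contra hcon
    push Not at hcon
    apply hgS
    rw [← Subspace.dualCoannihilator_dualAnnihilator_eq (W := S)]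
    exact (Submodule.mem_dualAnnihilator g).2 hcon
  obtain ⟨v, hv, hgv⟩ := h1
  have hxv : ∀ p ∈ X, x p v = 0 := fun p hp =>
    (Submodule.mem_dualCoannihilator v).1 hv _ (Submodule.subset_span ⟨p, mem_coe.2 hp, rfl⟩)
  refine ⟨(g v)⁻¹ • v, ?_, fun p hp => ?_⟩
  · rw [map_smul, smul_eq_mul, inv_mul_cancel₀ hgv]
  · rw [map_smul, hxv p hp, smul_zero]

/-- At a critical point no other row is tight. -/
theorem vertex_ne (hS : Swp r R x g h) {X : Finset P} (hX : X ⊆ R) (hXr : X.card = r) {v : E}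
    (hgv : g v = 1) (hv : ∀ p ∈ X, x p v = 0) {y : P} (hy : y ∈ R) (hyX : y ∉ X) :
    x y v ≠ 0 := by
  intro h0
  have hli := hS.G1 (insert y X) (insert_subset hy hX) (by rw [card_insert_of_notMem hyX, hXr])
  have htop : Submodule.span ℝ (Set.range fun p : (insert y X : Finset P) => x p) = ⊤ := by
    apply hli.span_eq_top_of_card_eq_finrank'
    rw [Fintype.card_coe, Subspace.dual_finrank_eq, hS.dim, card_insert_of_notMem hyX, hXr]
  have hgm : g ∈ Submodule.span ℝ (Set.range fun p : (insert y X : Finset P) => x p) := by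
    rw [htop]
    trivial
  have hle : Submodule.span ℝ (Set.range fun p : (insert y X : Finset P) => x p) ≤
      (Submodule.span ℝ {v}).dualAnnihilator := by
    rw [Submodule.span_le]
    rintro _ ⟨p, rfl⟩
    refine (Submodule.mem_dualAnnihilator _).2 fun w hw => ?_
    obtain ⟨t, rfl⟩ := Submodule.mem_span_singleton.1 hw
    show x (p : P) (t • v) = 0
    rw [map_smul]
    rcases mem_insert.1 p.2 with h1 | h1
    · rw [h1, h0, smul_zero]
    · rw [hv _ h1, smul_zero]
  have h1 := (Submodule.mem_dualAnnihilator _).1 (hle hgm) v (Submodule.mem_span_singleton_self v)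
  rw [hgv] at h1
  exact one_ne_zero h1

/-- Every row is a combination of the tight rows and `g`. -/
theorem vertex_rep (hS : Swp r R x g h) {X : Finset P} (hX : X ⊆ R) (hXr : X.card = r) {v : E}
    (hgv : g v = 1) (hv : ∀ p ∈ X, x p v = 0) (f : Dual ℝ E) :
    ∃ c : P → ℝ, f = f v • g + ∑ p ∈ X, c p • x p := by
  -- the independent family `g, x p`
  have hli := hS.G1 X hX (by omega)
  have hli2 : LinearIndependent ℝ (fun o : Option X => o.casesOn' g fun p : X => x p) := by
    rw [linearIndependent_option']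
    refine ⟨hli, ?_⟩
    have : Set.range (fun p : X => x p) = x '' (X : Set P) := by
      ext f
      constructor
      · rintro ⟨p, rfl⟩
        exact ⟨p, mem_coe.2 p.2, rfl⟩
      · rintro ⟨p, hp, rfl⟩
        exact ⟨⟨p, mem_coe.1 hp⟩, rfl⟩
    rw [this]
    exact hS.G2' X hX hXr.le
  have htop : Submodule.span ℝ (Set.range fun o : Option X => o.casesOn' g fun p : X => x p) = ⊤ := by
    apply hli2.span_eq_top_of_card_eq_finrank'
    rw [Fintype.card_option, Fintype.card_coe, Subspace.dual_finrank_eq, hS.dim, hXr]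
  have hfm : f ∈ Submodule.span ℝ (Set.range fun o : Option X => o.casesOn' g fun p : X => x p) := by
    rw [htop]
    trivial
  obtain ⟨γ, hγ⟩ := (Submodule.mem_span_range_iff_exists_fun ℝ).1 hfm
  rw [Fintype.sum_option] at hγ
  simp only [Option.casesOn'_none, Option.casesOn'_some] at hγ
  let c : P → ℝ := fun p => if hp : p ∈ X then γ (some ⟨p, hp⟩) else 0
  have hc : ∑ i : X, γ (some i) • x i = ∑ p ∈ X, c p • x p := by
    rw [← Finset.sum_coe_sort X]
    refine Finset.sum_congr rfl fun p _ => ?_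
    simp only [c, dif_pos p.2]
  rw [hc] at hγ
  refine ⟨c, ?_⟩
  have hev := congrArg (fun f : Dual ℝ E => f v) hγ
  simp only [LinearMap.add_apply, LinearMap.smul_apply, smul_eq_mul, LinearMap.sum_apply,
    hgv, mul_one] at hev
  have hz : ∑ p ∈ X, c p * x p v = 0 :=
    Finset.sum_eq_zero fun p hp => by rw [hv p hp, mul_zero]
  rw [hz, add_zero] at hev
  rw [← hev, hγ]

/-- the rows which are positive at `v` -/
noncomputable def Tv (R : Finset P) (x : P → Dual ℝ E) (v : E) : Finset P := by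
  classical exact R.filter fun p => 0 < x p v

omit [DecidableEq P] [FiniteDimensional ℝ E] in
theorem mem_Tv {v : E} {p : P} : p ∈ Tv R x v ↔ p ∈ R ∧ 0 < x p v := by
  classical
  unfold Tv
  rw [mem_filter]

omit [FiniteDimensional ℝ E] in
/-- A system of inequalities near a critical point. -/
theorem near_vertex (hS : Swp r R x g h) {X : Finset P} (hX : X ⊆ R) (hXr : X.card = r)
    {τ : ℝ} {c : P → ℝ} (hrel : h - τ • g = ∑ p ∈ X, c p • x p) {v : E} (hgv : g v = 1)
    (hv : ∀ p ∈ X, x p v = 0) {a s : ℝ} (haτ : a < τ) (hτs : τ < s) :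
    Gm x g h a s (X ∪ Tv R x v) := by
  have hhv : h v = τ := by
    have h1 := congrArg (fun f : Dual ℝ E => f v) hrel
    simp only [LinearMap.smul_apply, LinearMap.sub_apply, smul_eq_mul, LinearMap.sum_apply,
      hgv, mul_one] at h1
    have hz : ∑ p ∈ X, c p * x p v = 0 :=
      Finset.sum_eq_zero fun p hp => by rw [hv p hp, mul_zero]
    rw [hz] at h1
    linarith
  have hdisj : Disjoint X (Tv R x v) := by
    rw [Finset.disjoint_left]
    intro p hp hpT
    have := (mem_Tv.1 hpT).2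
    rw [hv p hp] at this
    exact lt_irrefl _ this
  by_contra hn
  obtain ⟨d, α, β, γ, hd, hα, hβ, hγ, hpos, hrel'⟩ :=
    gord3 x (X ∪ Tv R x v) g (h - a • g) (s • g - h) (by
      rintro ⟨l, h1, h2, h3, h4⟩
      refine hn ⟨l, h2, ?_, ?_, h1⟩
      · rw [LinearMap.sub_apply, LinearMap.smul_apply, smul_eq_mul] at h3
        linarith
      · rw [LinearMap.sub_apply, LinearMap.smul_apply, smul_eq_mul] at h4
        linarith)
  have hev := congrArg (fun f : Dual ℝ E => f v) hrel'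
  simp only [LinearMap.add_apply, LinearMap.smul_apply, LinearMap.sub_apply, smul_eq_mul,
    LinearMap.zero_apply, LinearMap.sum_apply, hgv, mul_one, hhv] at hev
  rw [Finset.sum_union hdisj,
    Finset.sum_eq_zero (s := X) fun p hp => by rw [hv p hp, mul_zero], zero_add] at hev
  have hT0 : ∀ p ∈ Tv R x v, 0 ≤ d p * x p v := fun p hp =>
    mul_nonneg (hd p (mem_union_right _ hp)) (mem_Tv.1 hp).2.le
  have hsm := Finset.sum_nonneg hT0
  have e1 : 0 ≤ β * (τ - a) := mul_nonneg hβ (by linarith)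
  have e2 : 0 ≤ γ * (s - τ) := mul_nonneg hγ (by linarith)
  have hα0 : α = 0 := by linarith
  have hβ0 : β = 0 := by
    have : β * (τ - a) = 0 := by linarith
    rcases mul_eq_zero.1 this with h1 | h1
    · exact h1
    · linarith
  have hγ0 : γ = 0 := by
    have : γ * (s - τ) = 0 := by linarith
    rcases mul_eq_zero.1 this with h1 | h1
    · exact h1
    · linarith
  have hsm0 : ∑ p ∈ Tv R x v, d p * x p v = 0 := by linarith
  have hdT : ∀ p ∈ Tv R x v, d p = 0 := by
    intro p hp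
    have h1 := (Finset.sum_eq_zero_iff_of_nonneg hT0).1 hsm0 p hp
    rcases mul_eq_zero.1 h1 with h2 | h2
    · exact h2
    · exact absurd h2 (mem_Tv.1 hp).2.ne'
  rw [hα0, hβ0, hγ0, zero_smul, zero_smul, zero_smul, add_zero, add_zero, add_zero,
    Finset.sum_union hdisj, Finset.sum_eq_zero (s := Tv R x v) fun p hp => by
      rw [hdT p hp, zero_smul], add_zero] at hrel'
  have hdX : ∀ p ∈ X, d p = 0 := by
    intro p hp
    have h1 := Fintype.linearIndependent_iff.1 (hS.G1 X hX (by omega)) (fun q => d q) (by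
      rw [Finset.sum_coe_sort X fun q => d q • x q]
      exact hrel') ⟨p, hp⟩
    exact h1
  rcases hpos with ⟨p, hp, hcp⟩ | h5 | h5 | h5
  · rcases mem_union.1 hp with h6 | h6
    · rw [hdX p h6] at hcp
      exact lt_irrefl _ hcp
    · rw [hdT p h6] at hcp
      exact lt_irrefl _ hcp
  · rw [hα0] at h5
    exact lt_irrefl _ h5
  · rw [hβ0] at h5
    exact lt_irrefl _ h5
  · rw [hγ0] at h5
    exact lt_irrefl _ h5

omit [FiniteDimensional ℝ E] in
/-- The faces of `X ∪ T` which do not contain `X` are met before the critical point. -/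
theorem below_vertex (hS : Swp r R x g h) {X : Finset P} (hX : X ⊆ R) (hXr : X.card = r)
    {τ : ℝ} {c : P → ℝ} (hc : ∀ p ∈ X, 0 < c p)
    (hrel : h - τ • g = ∑ p ∈ X, c p • x p) {v : E} (hgv : g v = 1)
    (hv : ∀ p ∈ X, x p v = 0) {a : ℝ} (haτ : a < τ) {B : Finset P}
    (hB : B ⊆ X ∪ Tv R x v) (hXB : ¬ X ⊆ B) :
    Gm x g h a τ B := by
  have hhv : h v = τ := by
    have h1 := congrArg (fun f : Dual ℝ E => f v) hrel
    simp only [LinearMap.smul_apply, LinearMap.sub_apply, smul_eq_mul, LinearMap.sum_apply,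
      hgv, mul_one] at h1
    have hz : ∑ p ∈ X, c p * x p v = 0 :=
      Finset.sum_eq_zero fun p hp => by rw [hv p hp, mul_zero]
    rw [hz] at h1
    linarith
  by_contra hn
  obtain ⟨d, α, β, γ, hd, hα, hβ, hγ, hpos, hrel'⟩ :=
    gord3 x B g (h - a • g) (τ • g - h) (by
      rintro ⟨l, h1, h2, h3, h4⟩
      refine hn ⟨l, h2, ?_, ?_, h1⟩
      · rw [LinearMap.sub_apply, LinearMap.smul_apply, smul_eq_mul] at h3
        linarith
      · rw [LinearMap.sub_apply, LinearMap.smul_apply, smul_eq_mul] at h4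
        linarith)
  have hnn : ∀ p ∈ B, 0 ≤ x p v := by
    intro p hp
    rcases mem_union.1 (hB hp) with h1 | h1
    · rw [hv p h1]
    · exact (mem_Tv.1 h1).2.le
  have hev := congrArg (fun f : Dual ℝ E => f v) hrel'
  simp only [LinearMap.add_apply, LinearMap.smul_apply, LinearMap.sub_apply, smul_eq_mul,
    LinearMap.zero_apply, LinearMap.sum_apply, hgv, mul_one, hhv, sub_self, mul_zero,
    add_zero] at hev
  have hB0 : ∀ p ∈ B, 0 ≤ d p * x p v := fun p hp => mul_nonneg (hd p hp) (hnn p hp)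
  have hsm := Finset.sum_nonneg hB0
  have e1 : 0 ≤ β * (τ - a) := mul_nonneg hβ (by linarith)
  have hα0 : α = 0 := by linarith
  have hβ0 : β = 0 := by
    have : β * (τ - a) = 0 := by linarith
    rcases mul_eq_zero.1 this with h1 | h1
    · exact h1
    · linarith
  have hsm0 : ∑ p ∈ B, d p * x p v = 0 := by linarith
  have hdT : ∀ p ∈ B, p ∉ X → d p = 0 := by
    intro p hp hpX
    have h1 := (Finset.sum_eq_zero_iff_of_nonneg hB0).1 hsm0 p hp
    rcases mul_eq_zero.1 h1 with h2 | h2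
    · exact h2
    · have h3 := (mem_union.1 (hB hp)).resolve_left hpX
      exact absurd h2 (mem_Tv.1 h3).2.ne'
  -- the relation on `X`
  have hsum : ∑ p ∈ B, d p • x p = ∑ p ∈ X, (if p ∈ B then d p else 0) • x p := by
    have h1 : ∑ p ∈ X, (if p ∈ B then d p else 0) • x p = ∑ p ∈ X ∩ B, d p • x p := by
      rw [← Finset.sum_filter_add_sum_filter_not X (· ∈ B), Finset.filter_mem_eq_inter,
        Finset.sum_congr rfl fun p hp => by rw [if_pos (mem_inter.1 hp).2],
        Finset.sum_eq_zero (s := X.filter fun p => p ∉ B) fun p hp => by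
          rw [if_neg (mem_filter.1 hp).2, zero_smul], add_zero]
    rw [h1]
    symm
    refine Finset.sum_subset inter_subset_right fun p hp hpn => ?_
    rw [hdT p hp fun hpX => hpn (mem_inter.2 ⟨hpX, hp⟩), zero_smul]
  rw [hα0, hβ0, zero_smul, zero_smul, add_zero, add_zero, hsum] at hrel'
  have h2 : τ • g - h = -∑ p ∈ X, c p • x p := by
    rw [← hrel]
    abel
  rw [h2, smul_neg, Finset.smul_sum, ← sub_eq_add_neg, ← Finset.sum_sub_distrib] at hrel'
  have hli := Fintype.linearIndependent_iff.1 (hS.G1 X hX (by omega))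
    (fun q => (if (q : P) ∈ B then d q else 0) - γ * c q) (by
      rw [Finset.sum_coe_sort X fun q => ((if (q : P) ∈ B then d q else 0) - γ * c q) • x q,
        ← hrel']
      refine Finset.sum_congr rfl fun q _ => ?_
      module)
  obtain ⟨q, hqX, hqB⟩ := Finset.not_subset.1 hXB
  have h3 : (if (q : P) ∈ B then d q else 0) - γ * c q = 0 := hli ⟨q, hqX⟩
  rw [if_neg hqB, zero_sub, neg_eq_zero] at h3
  have hγ0 : γ = 0 := by
    rcases mul_eq_zero.1 h3 with h4 | h4
    · exact h4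
    · exact absurd h4 (hc q hqX).ne'
  rcases hpos with ⟨p, hp, hcp⟩ | h5 | h5 | h5
  · by_cases hpX : p ∈ X
    · have h6 : (if (p : P) ∈ B then d p else 0) - γ * c p = 0 := hli ⟨p, hpX⟩
      rw [if_pos hp, hγ0, zero_mul, sub_zero] at h6
      rw [h6] at hcp
      exact lt_irrefl _ hcp
    · rw [hdT p hp hpX] at hcp
      exact lt_irrefl _ hcp
  · rw [hα0] at h5
    exact lt_irrefl _ h5
  · rw [hβ0] at h5
    exact lt_irrefl _ h5
  · rw [hγ0] at h5
    exact lt_irrefl _ h5

/-- The new faces between two consecutive critical values. -/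
theorem key (hS : Swp r R x g h) {a τ s : ℝ} (haτ : a < τ)
    (hno : ∀ σ, τ < σ → σ < s → ∀ X, ¬ Act r R x g h σ X) {A : Finset P} (hAR : A ⊆ R)
    (h1 : Gm x g h a s A) (h2 : ¬ Gm x g h a τ A) :
    ∃ X, X ⊆ A ∧ Act r R x g h τ X ∧ ∀ v : E, g v = 1 → (∀ p ∈ X, x p v = 0) →
      A ⊆ X ∪ Tv R x v := by
  obtain ⟨l0, hg0, ha0, hs0, hA0⟩ := h1
  -- every nonnegative representation has a value at most `τ`
  have hmax : ∀ τ' : ℝ, ∀ c : P → ℝ, (∀ p ∈ A, 0 ≤ c p) → h - τ' • g = ∑ p ∈ A, c p • x p →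
      τ' ≤ τ := by
    intro τ' c hc hrel
    obtain ⟨X, hXA, σ, hσ, hact, hlt⟩ := dual1 hS hAR hg0 hA0 hc hrel
    by_contra hcon
    push Not at hcon
    refine hno σ (hcon.trans_le hσ) ?_ X hact
    exact lt_of_mul_lt_mul_right (hlt.trans hs0) hg0.le
  obtain ⟨τ', hτ', c, hc, hrel⟩ := farkas1 haτ hg0 ha0 hA0 h2
  obtain ⟨X, hXA, σ, hσ, hact, hlt⟩ := dual1 hS hAR hg0 hA0 hc hrel
  obtain ⟨hXR, hXr, d, hd, hrel2⟩ := hact
  have hστ : σ = τ := by
    apply le_antisymm _ (hτ'.trans hσ)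
    by_contra hcon
    push Not at hcon
    exact hno σ hcon (lt_of_mul_lt_mul_right (hlt.trans hs0) hg0.le) X ⟨hXR, hXr, d, hd, hrel2⟩
  subst hστ
  refine ⟨X, hXA, ⟨hXR, hXr, d, hd, hrel2⟩, fun v hgv hv y hy => ?_⟩
  by_cases hyX : y ∈ X
  · exact mem_union_left _ hyX
  refine mem_union_right _ (mem_Tv.2 ⟨hAR hy, ?_⟩)
  by_contra hneg
  have hne := vertex_ne hS hXR hXr hgv hv (hAR hy) hyX
  have hlt0 : x y v < 0 := lt_of_le_of_ne (not_lt.1 hneg) hne
  obtain ⟨e, he⟩ := vertex_rep hS hXR hXr hgv hv (x y)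
  -- a small step
  obtain ⟨ε, hε, hεX⟩ : ∃ ε : ℝ, 0 < ε ∧ ∀ p ∈ X, 0 ≤ d p - ε * e p := by
    have hXne : X.Nonempty := by
      rw [← card_pos, hXr]
      exact hS.hr
    obtain ⟨q, hq, hqmin⟩ := Finset.exists_min_image X (fun p => d p / (|e p| + 1)) hXne
    refine ⟨d q / (|e q| + 1), div_pos (hd q hq) (by positivity), fun p hp => ?_⟩
    have h3 := hqmin p hp
    have h4 : d q / (|e q| + 1) * (|e p| + 1) ≤ d p := by
      rw [← le_div_iff₀ (by positivity)]
      exact h3
    have h5 : 0 < d q / (|e q| + 1) := div_pos (hd q hq) (by positivity)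
    have h6 : d q / (|e q| + 1) * e p ≤ d q / (|e q| + 1) * |e p| :=
      mul_le_mul_of_nonneg_left (le_abs_self _) h5.le
    nlinarith
  have hμ : 0 < -x y v := by linarith
  have hnew := hmax (σ + ε * -x y v)
    (fun p => if p = y then ε else if p ∈ X then d p - ε * e p else 0) (by
      intro p _
      show 0 ≤ if p = y then ε else if p ∈ X then d p - ε * e p else 0
      split_ifs with h3 h4
      · exact hε.le
      · exact hεX p h4
      · exact le_refl _) (by
      have h3 : ∑ p ∈ A, (if p = y then ε else if p ∈ X then d p - ε * e p else 0) • x p =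
          ε • x y + ∑ p ∈ X, (d p - ε * e p) • x p := by
        rw [← Finset.add_sum_erase A _ hy, if_pos rfl]
        congr 1
        symm
        have hXe : X ⊆ A.erase y := fun p hp => mem_erase.2 ⟨fun h => hyX (h ▸ hp), hXA hp⟩
        rw [← Finset.sum_subset hXe]
        · refine Finset.sum_congr rfl fun p hp => ?_
          have hpy : p ≠ y := fun h => hyX (h ▸ hp)
          rw [if_neg hpy, if_pos hp]
        · intro p hp hpX
          rw [if_neg (mem_erase.1 hp).1, if_neg hpX, zero_smul]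
      rw [h3]
      have h4 : ∀ p ∈ X, (d p - ε * e p) • x p = d p • x p - ε • e p • x p := by
        intro p _
        module
      rw [Finset.sum_congr rfl h4, Finset.sum_sub_distrib, ← hrel2, ← Finset.smul_sum]
      have h5 : ∑ p ∈ X, e p • x p = x y - x y v • g := eq_sub_of_add_eq' he.symm
      rw [h5]
      module)
  have := mul_pos hε hμ
  linarith

end sweep

end Pool.Agent.KAL
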